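import Pool.Agent.Helper58.Apex.Defs

/-!
# Basic lemmas on minor models
-/

namespace NApexGraphs

open SimpleGraph

universe u v w

variable {κ : Type u} {V : Type v} {W : Type w}

/-- closed-set form of connectivity of a set of vertices -/
def Conn (G : SimpleGraph V) (S : Set V) : Prop :=
  S.Nonempty ∧ ∀ A : Set V, A ⊆ S → A.Nonempty →
    (∀ x ∈ A, ∀ y ∈ S, G.Adj x y → y ∈ A) → S ⊆ A

theorem conn_iff (G : SimpleGraph V) (S : Set V) : (G.induce S).Connected ↔ Conn G S := by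
  constructor
  · intro h
    refine ⟨?_, ?_⟩
    · obtain ⟨x⟩ := h.nonempty
      exact ⟨x.1, x.2⟩
    · intro A hA hne hcl y hy
      obtain ⟨x, hx⟩ := hne
      have hr : (G.induce S).Reachable ⟨x, hA hx⟩ ⟨y, hy⟩ := h.preconnected _ _
      obtain ⟨p⟩ := hr
      have key : ∀ (a b : S), (G.induce S).Walk a b → a.1 ∈ A → b.1 ∈ A := by
        intro a b q
        induction q with
        | nil => exact fun h => h
        | cons hadj q ih =>
          intro ha
          exact ih (hcl _ ha _ (Subtype.property _) hadj)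
      exact key _ _ p hx
  · rintro ⟨⟨x, hx⟩, h⟩
    have : Nonempty S := ⟨⟨x, hx⟩⟩
    rw [SimpleGraph.connected_iff_exists_forall_reachable]
    refine ⟨⟨x, hx⟩, ?_⟩
    let A : Set V := {y | ∃ hy : y ∈ S, (G.induce S).Reachable ⟨x, hx⟩ ⟨y, hy⟩}
    have hA : S ⊆ A := by
      apply h A
      · rintro y ⟨hy, _⟩; exact hy
      · exact ⟨x, hx, Reachable.refl _⟩
      · rintro a ⟨ha, har⟩ b hb hab
        refine ⟨hb, har.trans ?_⟩
        apply SimpleGraph.Adj.reachable
        exact hab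
    intro w
    obtain ⟨_, hr⟩ := hA w.2
    exact hr

/-- closed-set form of a model -/
theorem isModel_iff (K : SimpleGraph κ) (G : SimpleGraph V) (B : κ → Set V) :
    IsModel K G B ↔ (∀ k, Conn G (B k)) ∧ (∀ k l, k ≠ l → Disjoint (B k) (B l)) ∧
      (∀ k l, K.Adj k l → ∃ x ∈ B k, ∃ y ∈ B l, G.Adj x y) := by
  unfold IsModel
  simp only [conn_iff]

theorem IsModel.conn {K : SimpleGraph κ} {G : SimpleGraph V} {B : κ → Set V}
    (h : IsModel K G B) (k : κ) : Conn G (B k) := (conn_iff G (B k)).1 (h.1 k)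

theorem Conn.singleton (G : SimpleGraph V) (x : V) : Conn G {x} := by
  refine ⟨⟨x, rfl⟩, ?_⟩
  rintro A hA ⟨y, hy⟩ _ z hz
  have h1 : y = x := hA hy
  have h2 : z = x := hz
  rw [h2, ← h1]; exact hy

/-- a connected set with a point outside `A` and a point inside `A` has an edge leaving `A` -/
theorem Conn.exists_edge {G : SimpleGraph V} {S A : Set V} (h : Conn G S)
    (h1 : (S ∩ A).Nonempty) (h2 : (S \ A).Nonempty) :
    ∃ x ∈ S, x ∈ A ∧ ∃ y ∈ S, y ∉ A ∧ G.Adj x y := by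
  by_contra hcon
  push Not at hcon
  have h3 : S ⊆ S ∩ A := by
    apply h.2 (S ∩ A) Set.inter_subset_left h1
    rintro x ⟨hx, hxA⟩ y hy hxy
    refine ⟨hy, ?_⟩
    by_contra hyA
    exact hcon x hx hxA y hy hyA hxy
  obtain ⟨z, hz, hzA⟩ := h2
  exact hzA (h3 hz).2

/-- a connected set meeting a set `A` which is closed inside `S` is contained in `A` -/
theorem Conn.subset_of_closed {G : SimpleGraph V} {S A : Set V} (h : Conn G S)
    (h1 : (S ∩ A).Nonempty) (hcl : ∀ x ∈ S, x ∈ A → ∀ y ∈ S, G.Adj x y → y ∈ A) : S ⊆ A := by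
  by_contra hcon
  rw [Set.not_subset] at hcon
  obtain ⟨z, hz, hzA⟩ := hcon
  obtain ⟨x, hx, hxA, y, hy, hyA, hxy⟩ := h.exists_edge h1 ⟨z, hz, hzA⟩
  exact hyA (hcl x hx hxA y hy hxy)

theorem Conn.mono {G G' : SimpleGraph V} {S : Set V} (h : Conn G S)
    (hle : ∀ x ∈ S, ∀ y ∈ S, G.Adj x y → G'.Adj x y) : Conn G' S :=
  ⟨h.1, fun A hA hne hcl => h.2 A hA hne fun x hx y hy hxy =>
    hcl x hx y hy (hle x (hA hx) y hy hxy)⟩

/-- adding a set of vertices, each connected part of which touches -/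
theorem Conn.union {G : SimpleGraph V} {S T : Set V} (hS : Conn G S) (hT : Conn G T)
    (h : ∃ x ∈ S, ∃ y ∈ T, G.Adj x y) : Conn G (S ∪ T) := by
  obtain ⟨x, hx, y, hy, hxy⟩ := h
  refine ⟨⟨x, Or.inl hx⟩, ?_⟩
  intro A hA hne hcl
  have cS : (S ∩ A).Nonempty → S ⊆ A := fun h1 =>
    hS.subset_of_closed h1 fun a ha haA b hb hab => hcl a haA b (Or.inl hb) hab
  have cT : (T ∩ A).Nonempty → T ⊆ A := fun h1 =>
    hT.subset_of_closed h1 fun a ha haA b hb hab => hcl a haA b (Or.inr hb) hab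
  obtain ⟨z, hz⟩ := hne
  have hxyA : x ∈ A ∨ y ∈ A := by
    rcases hA hz with hzS | hzT
    · exact Or.inl (cS ⟨z, hzS, hz⟩ hx)
    · exact Or.inr (cT ⟨z, hzT, hz⟩ hy)
  have hxA : x ∈ A := by
    rcases hxyA with h1 | h1
    · exact h1
    · exact hcl y h1 x (Or.inl hx) hxy.symm
  have hyA : y ∈ A := hcl x hxA y (Or.inr hy) hxy
  exact Set.union_subset (cS ⟨x, hx, hxA⟩) (cT ⟨y, hy, hyA⟩)

/-- models in an induced subgraph are models in the graph, with branch sets in the vertex set -/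
theorem isMinor_induce_iff (K : SimpleGraph κ) (G : SimpleGraph V) (S : Set V) :
    IsMinor K (G.induce S) ↔ ∃ B : κ → Set V, IsModel K G B ∧ ∀ k, B k ⊆ S := by
  constructor
  · rintro ⟨B, hB⟩
    rw [isModel_iff] at hB
    obtain ⟨hc, hd, ha⟩ := hB
    refine ⟨fun k => Subtype.val '' (B k), ?_, ?_⟩
    · rw [isModel_iff]
      refine ⟨?_, ?_, ?_⟩
      · intro k
        obtain ⟨hne, hcl⟩ := hc k
        refine ⟨hne.image _, ?_⟩
        intro A hA hAne hAcl
        have h1 : B k ⊆ Subtype.val ⁻¹' A := by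
          have h2 := hcl ((B k) ∩ Subtype.val ⁻¹' A) Set.inter_subset_left ?_ ?_
          · exact fun x hx => (h2 hx).2
          · obtain ⟨a, haA⟩ := hAne
            obtain ⟨b, hb, rfl⟩ := hA haA
            exact ⟨b, hb, haA⟩
          · rintro x ⟨hx, hxA⟩ y hy hxy
            exact ⟨hy, hAcl x.1 hxA y.1 ⟨y, hy, rfl⟩ hxy⟩
        rintro _ ⟨b, hb, rfl⟩
        exact h1 hb
      · intro k l hkl
        exact (Set.disjoint_image_iff Subtype.val_injective).2 (hd k l hkl)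
      · intro k l hkl
        obtain ⟨x, hx, y, hy, hxy⟩ := ha k l hkl
        exact ⟨x.1, ⟨x, hx, rfl⟩, y.1, ⟨y, hy, rfl⟩, hxy⟩
    · rintro k _ ⟨b, _, rfl⟩
      exact b.2
  · rintro ⟨B, hB, hS⟩
    rw [isModel_iff] at hB
    obtain ⟨hc, hd, ha⟩ := hB
    refine ⟨fun k => Subtype.val ⁻¹' (B k), ?_⟩
    rw [isModel_iff]
    refine ⟨?_, ?_, ?_⟩
    · intro k
      obtain ⟨hne, hcl⟩ := hc k
      refine ⟨?_, ?_⟩
      · obtain ⟨x, hx⟩ := hne
        exact ⟨⟨x, hS k hx⟩, hx⟩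
      · intro A hA hAne hAcl
        have h1 : B k ⊆ Subtype.val '' A := by
          apply hcl
          · rintro _ ⟨a, ha', rfl⟩
            exact hA ha'
          · exact hAne.image _
          · rintro _ ⟨a, ha', rfl⟩ y hy hxy
            exact ⟨⟨y, hS k hy⟩, hAcl a ha' ⟨y, hS k hy⟩ hy hxy, rfl⟩
        intro x hx
        obtain ⟨a, ha', hax⟩ := h1 hx
        have : a = x := Subtype.ext hax
        rwa [← this]
    · intro k l hkl
      exact Disjoint.preimage _ (hd k l hkl)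
    · intro k l hkl
      obtain ⟨x, hx, y, hy, hxy⟩ := ha k l hkl
      exact ⟨⟨x, hS k hx⟩, hx, ⟨y, hS l hy⟩, hy, hxy⟩

/-- composition of models -/
theorem IsModel.comp {K : SimpleGraph κ} {H : SimpleGraph W} {G : SimpleGraph V}
    {D : κ → Set W} {A : W → Set V} (hD : IsModel K H D) (hA : IsModel H G A) :
    IsModel K G (fun k => ⋃ h ∈ D k, A h) := by
  rw [isModel_iff] at hD hA ⊢
  obtain ⟨hDc, hDd, hDa⟩ := hD
  obtain ⟨hAc, hAd, hAa⟩ := hA
  refine ⟨?_, ?_, ?_⟩
  · intro k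
    refine ⟨?_, ?_⟩
    · obtain ⟨h, hh⟩ := (hDc k).1
      obtain ⟨x, hx⟩ := (hAc h).1
      exact ⟨x, Set.mem_biUnion hh hx⟩
    · intro S hS hSne hScl
      have hall : ∀ h ∈ D k, (A h ∩ S).Nonempty → A h ⊆ S := fun h hh h1 =>
        (hAc h).subset_of_closed h1 fun a ha haS b hb hab =>
          hScl a haS b (Set.mem_biUnion hh hb) hab
      have hDS : D k ⊆ {h | A h ⊆ S} := by
        apply (hDc k).subset_of_closed
        · obtain ⟨x, hx⟩ := hSne
          obtain ⟨h, hh, hxh⟩ := Set.mem_iUnion₂.1 (hS hx)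
          exact ⟨h, hh, hall h hh ⟨x, hxh, hx⟩⟩
        · intro h hh hhS h' hh' hadj
          obtain ⟨x, hx, y, hy, hxy⟩ := hAa h h' hadj
          exact hall h' hh' ⟨y, hy, hScl x (hhS hx) y (Set.mem_biUnion hh' hy) hxy⟩
      intro x hx
      obtain ⟨h, hh, hxh⟩ := Set.mem_iUnion₂.1 hx
      exact hDS hh hxh
  · intro k l hkl
    rw [Set.disjoint_left]
    intro x hx hx'
    obtain ⟨h, hh, hxh⟩ := Set.mem_iUnion₂.1 hx
    obtain ⟨h', hh', hxh'⟩ := Set.mem_iUnion₂.1 hx'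
    have hne : h ≠ h' := by
      rintro rfl
      exact Set.disjoint_left.1 (hDd k l hkl) hh hh'
    exact Set.disjoint_left.1 (hAd h h' hne) hxh hxh'
  · intro k l hkl
    obtain ⟨h, hh, h', hh', hadj⟩ := hDa k l hkl
    obtain ⟨x, hx, y, hy, hxy⟩ := hAa h h' hadj
    exact ⟨x, Set.mem_biUnion hh hx, y, Set.mem_biUnion hh' hy, hxy⟩

theorem IsMinor.trans {K : SimpleGraph κ} {H : SimpleGraph W} {G : SimpleGraph V}
    (h1 : IsMinor K H) (h2 : IsMinor H G) : IsMinor K G := by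
  obtain ⟨D, hD⟩ := h1
  obtain ⟨A, hA⟩ := h2
  exact ⟨_, hD.comp hA⟩

/-- a subgraph embedding gives a minor -/
theorem isMinor_of_injective {K : SimpleGraph κ} {G : SimpleGraph V} (f : κ → V)
    (hf : Function.Injective f) (h : ∀ k l, K.Adj k l → G.Adj (f k) (f l)) : IsMinor K G := by
  refine ⟨fun k => {f k}, ?_⟩
  rw [isModel_iff]
  refine ⟨fun k => Conn.singleton G (f k), ?_, ?_⟩
  · intro k l hkl
    rw [Set.disjoint_singleton]
    exact fun he => hkl (hf he)
  · intro k l hkl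
    exact ⟨f k, rfl, f l, rfl, h k l hkl⟩

theorem IsMinor.of_iso {H : SimpleGraph W} {G : SimpleGraph V} (e : H ≃g G) : IsMinor H G :=
  isMinor_of_injective e e.injective fun k l h => e.map_adj_iff.2 h

theorem Planar.of_isMinor {H : SimpleGraph W} {G : SimpleGraph V} (h : IsMinor H G)
    (hG : Planar G) : Planar H :=
  ⟨fun h5 => hG.1 (h5.trans h), fun h6 => hG.2 (h6.trans h)⟩

/-- the set of branch sets met by a finite set of vertices -/
theorem card_meet_le {B : κ → Set V}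
    (hd : ∀ k l, k ≠ l → Disjoint (B k) (B l)) (X : Finset V) (Y : Finset κ)
    (hY : ∀ k ∈ Y, ∃ x ∈ X, x ∈ B k) : Y.card ≤ X.card := by
  classical
  apply Finset.card_le_card_of_forall_subsingleton (fun k x => x ∈ B k)
  · intro k hk
    exact hY k hk
  · rintro x _ k hk l hl
    by_contra hne
    exact Set.disjoint_left.1 (hd k l hne) hk.2 hl.2

/-- `n`-apex is minor closed. -/
theorem NApex.of_isMinor [Finite W] {H : SimpleGraph W} {G : SimpleGraph V} {n : ℕ}
    (h : IsMinor H G) (hG : NApex n G) : NApex n H := by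
  classical
  have := Fintype.ofFinite W
  obtain ⟨A, hA⟩ := h
  obtain ⟨X, hX, hP⟩ := hG
  let Y : Finset W := Finset.univ.filter fun w => ∃ x ∈ X, x ∈ A w
  refine ⟨Y, ?_, ?_⟩
  · refine le_trans (card_meet_le (B := A) hA.2.1 X Y ?_) hX
    intro k hk
    exact (Finset.mem_filter.1 hk).2
  · refine Planar.of_isMinor ?_ hP
    rw [isMinor_induce_iff]
    refine ⟨fun w => A w.1, ?_, ?_⟩
    · rw [isModel_iff] at hA ⊢
      refine ⟨fun k => hA.1 k.1, fun k l hkl => hA.2.1 _ _ fun h => hkl (Subtype.ext h),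
        fun _ _ hkl => hA.2.2 _ _ hkl⟩
    · intro k x hx hxX
      apply k.2
      simp only [Y, Finset.coe_filter, Finset.mem_univ, true_and, Set.mem_ofPred_eq]
      exact ⟨x, hxX, hx⟩

theorem NApex.mono {G : SimpleGraph V} {n m : ℕ} (h : n ≤ m) (hG : NApex n G) : NApex m G := by
  obtain ⟨X, hX, hP⟩ := hG
  exact ⟨X, hX.trans h, hP⟩

theorem MinMinimal.of_iso [Finite V] {G : SimpleGraph V} {G' : SimpleGraph W} {n : ℕ}
    (e : G ≃g G') (h : MinMinimal n G) : MinMinimal n G' := by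
  refine ⟨fun h' => h.1 (NApex.of_isMinor (IsMinor.of_iso e) h'), ?_⟩
  intro m H hH hne
  apply h.2 m H (hH.trans (IsMinor.of_iso e.symm))
  constructor
  intro f
  exact hne.false (f.trans e)

end NApexGraphs
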