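import Pool.Agent.Helper58.Apex.Local

/-!
# The core: a gadget, with one edge deleted or contracted
-/

namespace NApexGraphs

open SimpleGraph

universe u v w

variable {κ : Type u} {V : Type v} {W : Type w}

theorem Kur.nbrs [Fintype κ] {K : SimpleGraph κ} (hK : Kur K) (k : κ) :
    ∃ s : Finset κ, 9 ≤ s.card + Fintype.card κ ∧ ∀ l ∈ s, K.Adj k l := by
  classical
  rcases hK.card_cases with ⟨h5, hc⟩ | h6
  · refine ⟨Finset.univ.erase k, ?_, fun l hl => hc k l (Finset.ne_of_mem_erase hl).symm⟩
    rw [Finset.card_erase_of_mem (Finset.mem_univ k), Finset.card_univ, h5]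
  · obtain ⟨s, hs, hadj⟩ := hK.deg3 k
    exact ⟨s, by omega, hadj⟩

variable [Fintype κ] {K : SimpleGraph κ} {G : SimpleGraph V} {B : κ → Set V}

/-- the number of branch sets equals the order of the gadget. -/
theorem core_card (hK : Kur K) (hB : IsModel K G B) {A : Set V} (hA : ∀ k, B k ⊆ A)
    {T0 P0 : Finset V} [DecidableEq V]
    (hP : ∀ x ∈ P0, ∀ y ∈ A, G.Adj x y → y ∈ T0 ∪ P0)
    (hC : T0.card + P0.card = 5 ∨ T0.card + P0.card = 6) (hT : T0.card ≤ 3)
    (hN : ∀ x ∈ P0, ∃ N : Finset V, N.card + (T0.card + P0.card) ≤ 9 ∧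
      ∀ y ∈ A, G.Adj x y → y ∈ N)
    (hm : ∀ k, ∃ x ∈ T0 ∪ P0, x ∈ B k) : Fintype.card κ = T0.card + P0.card := by
  classical
  have hB' := (isModel_iff _ _ _).1 hB
  have h1 : Fintype.card κ ≤ T0.card + P0.card := by
    have := card_meet_le hB'.2.1 (T0 ∪ P0) Finset.univ (fun k _ => hm k)
    rw [Finset.card_univ] at this
    exact this.trans (Finset.card_union_le _ _)
  rcases hK.card_cases with ⟨h5, hcomp⟩ | h6
  · rcases hC with hC | hC
    · omega
    · exfalso
      -- branch sets avoiding T0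
      let Y : Finset κ := Finset.univ.filter fun m => ∃ x ∈ T0, x ∈ B m
      have hY : Y.card ≤ T0.card := by
        refine card_meet_le hB'.2.1 T0 Y ?_
        intro m hm
        exact (Finset.mem_filter.1 hm).2
      have hYc : 5 - T0.card ≤ (Yᶜ).card := by
        rw [Finset.card_compl, h5]
        omega
      have hin : ∀ m ∈ Yᶜ, B m ⊆ (P0 : Set V) := by
        intro m hmY
        have hno : ∀ x ∈ T0, x ∉ B m := by
          intro x hx hxm
          exact (Finset.mem_compl.1 hmY) (Finset.mem_filter.2 ⟨Finset.mem_univ _, x, hx, hxm⟩)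
        apply (hB'.1 m).subset_of_closed
        · obtain ⟨x, hx, hxm⟩ := hm m
          rcases Finset.mem_union.1 hx with hxT | hxP
          · exact absurd hxm (hno x hxT)
          · exact ⟨x, hxm, hxP⟩
        · intro a _ haP b hb hab
          rcases Finset.mem_union.1 (hP a haP b (hA m hb) hab) with hbT | hbP
          · exact absurd hb (hno b hbT)
          · exact hbP
      have htwo : ∀ m ∈ Yᶜ, 2 ≤ (P0.filter fun x => x ∈ B m).card := by
        intro m hmY
        by_contra hlt
        obtain ⟨x, hx⟩ := (hB'.1 m).1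
        have hxP := hin m hmY hx
        have hsing : B m = {x} := by
          refine Set.eq_singleton_iff_unique_mem.2 ⟨hx, fun y hy => ?_⟩
          by_contra hyx
          apply hlt
          have : ({x, y} : Finset V) ⊆ P0.filter fun x => x ∈ B m := by
            intro z hz
            rcases Finset.mem_insert.1 hz with rfl | hz
            · exact Finset.mem_filter.2 ⟨hxP, hx⟩
            · rw [Finset.mem_singleton.1 hz]
              exact Finset.mem_filter.2 ⟨hin m hmY hy, hy⟩
          calc 2 = ({x, y} : Finset V).card := (Finset.card_pair (Ne.symm hyx)).symm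
            _ ≤ _ := Finset.card_le_card this
        obtain ⟨s, hs, hsadj⟩ := hK.nbrs m
        obtain ⟨N, hN1, hN2⟩ := hN x hxP
        have h2 : s.card ≤ N.card := by
          refine card_meet_le hB'.2.1 N s ?_
          intro l hl
          obtain ⟨a, ha, b, hb, hab⟩ := hB'.2.2 m l (hsadj l hl)
          rw [hsing, Set.mem_singleton_iff] at ha
          subst ha
          exact ⟨b, hN2 b (hA l hb) hab, hb⟩
        omega
      have hsum : ∑ m ∈ Yᶜ, (P0.filter fun x => x ∈ B m).card ≤ P0.card := by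
        rw [← Finset.card_biUnion]
        · apply Finset.card_le_card
          intro x hx
          obtain ⟨m, _, hxm⟩ := Finset.mem_biUnion.1 hx
          exact (Finset.mem_filter.1 hxm).1
        · intro m _ m' _ hne
          rw [Function.onFun, Finset.disjoint_left]
          intro x hx hx'
          exact Set.disjoint_left.1 (hB'.2.1 m m' hne) (Finset.mem_filter.1 hx).2
            (Finset.mem_filter.1 hx').2
      have hsum2 : (Yᶜ).card * 2 ≤ ∑ m ∈ Yᶜ, (P0.filter fun x => x ∈ B m).card := by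
        have := Finset.card_nsmul_le_sum Yᶜ (fun m => (P0.filter fun x => x ∈ B m).card) 2 htwo
        simpa using this
      omega
  · rcases hC with hC | hC <;> omega

/-- one edge at a private vertex of the gadget is deleted or contracted. -/
theorem core_edge (hK : Kur K) {A : Set V} {T0 P0 : Finset V} [DecidableEq V]
    (hP : ∀ x ∈ P0, ∀ y ∈ A, G.Adj x y → y ∈ T0 ∪ P0)
    (hC : T0.card + P0.card = 5 ∨ T0.card + P0.card = 6) (hT : T0.card ≤ 3)
    (hN : ∀ x ∈ P0, ∃ N : Finset V, N.card + (T0.card + P0.card) ≤ 9 ∧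
      ∀ y ∈ A, G.Adj x y → y ∈ N)
    (hm : ∀ G' : SimpleGraph V, G' ≤ G → ∀ B : κ → Set V, IsModel K G' B → (∀ k, B k ⊆ A) →
      ∀ k, ∃ x ∈ T0 ∪ P0, x ∈ B k)
    {x y : V} (hx : x ∈ P0) (hyA : y ∈ A) (hxy : G.Adj x y) {X : Set V} (hX : Xᶜ = A) :
    EdgeKills K G x y X := by
  rw [EdgeKills, hX]
  have hcardle : (T0 ∪ P0).card ≤ T0.card + P0.card := Finset.card_union_le _ _
  refine ⟨?_, ?_⟩
  · intro B hB hA
    have hle : G.deleteEdges {s(x, y)} ≤ G := SimpleGraph.deleteEdges_le _
    have hB' := (isModel_iff _ _ _).1 hB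
    have hmB := hm _ hle B hB hA
    have hcard : Fintype.card κ = T0.card + P0.card :=
      core_card hK (hB.mono hle) hA hP hC hT hN hmB
    have hxC : x ∈ T0 ∪ P0 := Finset.mem_union_right _ hx
    obtain ⟨k, hk⟩ := meet_all hB'.2.1 (hcardle.trans hcard.ge) hmB hxC
    have hsing : B k = {x} := by
      refine Set.eq_singleton_iff_unique_mem.2 ⟨hk, ?_⟩
      by_contra hcon
      push Not at hcon
      obtain ⟨z, hz, hzx⟩ := hcon
      obtain ⟨a, ha, hax, b, hb, hbx, hab⟩ := (hB'.1 k).exists_edge (A := {x}) ⟨x, hk, rfl⟩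
        ⟨z, hz, hzx⟩
      rw [Set.mem_singleton_iff] at hax
      subst hax
      have hbC := hP a hx b (hA k hb) (hle hab)
      exact hbx (meet_unique hB'.2.1 (hcardle.trans hcard.ge) hmB hbC hxC hb ha)
    obtain ⟨s, hs, hsadj⟩ := hK.nbrs k
    obtain ⟨N, hN1, hN2⟩ := hN x hx
    have h2 : s.card ≤ (N.erase y).card := by
      refine card_meet_le hB'.2.1 (N.erase y) s ?_
      intro l hl
      obtain ⟨a, ha, b, hb, hab⟩ := hB'.2.2 k l (hsadj l hl)
      rw [hsing, Set.mem_singleton_iff] at ha
      subst ha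
      refine ⟨b, Finset.mem_erase.2 ⟨?_, hN2 b (hA l hb) (hle hab)⟩, hb⟩
      rintro rfl
      rw [SimpleGraph.deleteEdges_adj] at hab
      exact hab.2 rfl
    have hyN : y ∈ N := hN2 y hyA hxy
    rw [Finset.card_erase_of_mem hyN] at h2
    have h3 : 0 < N.card := Finset.card_pos.2 ⟨y, hyN⟩
    omega
  · intro B hB hA k hxk hyk
    have hB' := (isModel_iff _ _ _).1 hB
    have hmB := hm _ le_rfl B hB hA
    have hcard : Fintype.card κ = T0.card + P0.card :=
      core_card hK hB hA hP hC hT hN hmB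
    have hxC : x ∈ T0 ∪ P0 := Finset.mem_union_right _ hx
    have hyC : y ∈ T0 ∪ P0 := hP x hx y hyA hxy
    have := meet_unique hB'.2.1 (hcardle.trans hcard.ge) hmB hxC hyC hxk hyk
    exact hxy.ne this

end NApexGraphs
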