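import Mathlib

/-!
# Minor-minimal non-`n`-apex graphs (MP_18808e_co): basic definitions
-/

namespace NApexGraphs

universe u v w

/-- `B` is a minor model (a family of branch sets) of the graph `K` in the graph `G`:
the branch sets are connected (in particular nonempty) sets of vertices of `G`, pairwise
disjoint, and for every edge `kl` of `K` there is an edge of `G` between `B k` and `B l`. -/
def IsModel {κ : Type u} {V : Type v} (K : SimpleGraph κ) (G : SimpleGraph V)
    (B : κ → Set V) : Prop :=
  (∀ k, (G.induce (B k)).Connected) ∧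
  (∀ k l, k ≠ l → Disjoint (B k) (B l)) ∧
  (∀ k l, K.Adj k l → ∃ x ∈ B k, ∃ y ∈ B l, G.Adj x y)

/-- `K` is a minor of `G`. -/
def IsMinor {κ : Type u} {V : Type v} (K : SimpleGraph κ) (G : SimpleGraph V) : Prop :=
  ∃ B : κ → Set V, IsModel K G B

/-- The complete graph on five vertices. -/
abbrev K5 : SimpleGraph (Fin 5) := ⊤

/-- The complete bipartite graph with two sides of three vertices. -/
abbrev K33 : SimpleGraph (Fin 3 ⊕ Fin 3) := completeBipartiteGraph (Fin 3) (Fin 3)

/-- Planarity, in the form of Wagner's theorem: no `K₅` minor and no `K₃,₃` minor. -/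
def Planar {V : Type v} (G : SimpleGraph V) : Prop :=
  ¬ IsMinor K5 G ∧ ¬ IsMinor K33 G

/-- `G` is `n`-apex: some set of at most `n` vertices can be deleted so that the rest is
planar. -/
def NApex {V : Type v} (n : ℕ) (G : SimpleGraph V) : Prop :=
  ∃ X : Finset V, X.card ≤ n ∧ Planar (G.induce ((X : Set V)ᶜ))

/-- `G` is a minor-minimal non-`n`-apex graph: `G` is not `n`-apex but every proper minor
(a minor which is not isomorphic to `G`) is `n`-apex. -/
def MinMinimal {V : Type v} (n : ℕ) (G : SimpleGraph V) : Prop :=
  ¬ NApex n G ∧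
    ∀ (m : ℕ) (H : SimpleGraph (Fin m)), IsMinor H G → IsEmpty (H ≃g G) → NApex n H

end NApexGraphs
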