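import Pool.Agent.Helper58.Apex.Reduce

/-!
# Local arguments: pieces attached at few vertices, and the core
-/

namespace NApexGraphs

open SimpleGraph

universe u v w

variable {κ : Type u} {V : Type v} {W : Type w}

/-- the two Kuratowski graphs, abstractly -/
structure Kur (K : SimpleGraph κ) [Fintype κ] : Prop where
  /-- all vertices have three neighbours -/
  deg3 : ∀ k, ∃ s : Finset κ, s.card = 3 ∧ ∀ l ∈ s, K.Adj k l
  /-- edges dominate -/
  dom : ∀ k l, K.Adj k l → ∀ m, m = k ∨ m = l ∨ K.Adj k m ∨ K.Adj l m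
  /-- order five and complete, or order six -/
  card_cases : (Fintype.card κ = 5 ∧ ∀ k l, k ≠ l → K.Adj k l) ∨ Fintype.card κ = 6

theorem kur_K5 : Kur K5 := by
  refine ⟨?_, ?_, Or.inl ⟨rfl, fun k l h => h⟩⟩
  · intro k
    have h : 3 ≤ (Finset.univ.erase k).card := by
      rw [Finset.card_erase_of_mem (Finset.mem_univ k)]
      simp
    obtain ⟨s, hs, hc⟩ := Finset.exists_subset_card_eq h
    exact ⟨s, hc, fun l hl => (Finset.ne_of_mem_erase (hs hl)).symm⟩
  · intro k l _ m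
    by_cases h : m = k
    · exact Or.inl h
    · exact Or.inr (Or.inr (Or.inl (fun h' => h h'.symm)))

theorem kur_K33 : Kur K33 := by
  refine ⟨?_, ?_, Or.inr rfl⟩
  · rintro (k | k)
    · refine ⟨Finset.univ.map ⟨Sum.inr, Sum.inr_injective⟩, by simp, ?_⟩
      intro l hl
      simp only [Finset.mem_map, Finset.mem_univ, true_and, Function.Embedding.coeFn_mk] at hl
      obtain ⟨a, rfl⟩ := hl
      simp
    · refine ⟨Finset.univ.map ⟨Sum.inl, Sum.inl_injective⟩, by simp, ?_⟩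
      intro l hl
      simp only [Finset.mem_map, Finset.mem_univ, true_and, Function.Embedding.coeFn_mk] at hl
      obtain ⟨a, rfl⟩ := hl
      simp
  · rintro (k | k) (l | l) h (m | m) <;> simp_all

section Piece

variable [Fintype κ] {K : SimpleGraph κ} {G : SimpleGraph V} {B : κ → Set V}

/-- if all branch sets meet a set of as many vertices as there are branch sets, then they meet
it in exactly one vertex each -/
theorem meet_unique (hd : ∀ k l, k ≠ l → Disjoint (B k) (B l)) {C : Finset V}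
    (hC : C.card ≤ Fintype.card κ) (hm : ∀ k, ∃ x ∈ C, x ∈ B k) {k : κ} {a b : V}
    (ha : a ∈ C) (hb : b ∈ C) (hak : a ∈ B k) (hbk : b ∈ B k) : a = b := by
  classical
  by_contra hab
  have h1 : (Finset.univ : Finset κ).card ≤ (C.erase b).card := by
    refine card_meet_le hd (C.erase b) Finset.univ ?_
    intro l _
    by_cases hlk : l = k
    · subst hlk
      exact ⟨a, Finset.mem_erase.2 ⟨hab, ha⟩, hak⟩
    · obtain ⟨x, hx, hxl⟩ := hm l
      refine ⟨x, Finset.mem_erase.2 ⟨?_, hx⟩, hxl⟩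
      rintro rfl
      exact Set.disjoint_left.1 (hd l k hlk) hxl hbk
  rw [Finset.card_erase_of_mem hb, Finset.card_univ] at h1
  have h2 : 0 < C.card := Finset.card_pos.2 ⟨b, hb⟩
  omega

theorem meet_all (hd : ∀ k l, k ≠ l → Disjoint (B k) (B l)) {C : Finset V}
    (hC : C.card ≤ Fintype.card κ) (hm : ∀ k, ∃ x ∈ C, x ∈ B k) {c : V}
    (hc : c ∈ C) : ∃ k, c ∈ B k := by
  classical
  by_contra hcon
  push Not at hcon
  have h1 : (Finset.univ : Finset κ).card ≤ (C.erase c).card := by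
    refine card_meet_le hd (C.erase c) Finset.univ ?_
    intro l _
    obtain ⟨x, hx, hxl⟩ := hm l
    refine ⟨x, Finset.mem_erase.2 ⟨?_, hx⟩, hxl⟩
    rintro rfl
    exact hcon l hxl
  rw [Finset.card_erase_of_mem hc, Finset.card_univ] at h1
  have h2 : 0 < C.card := Finset.card_pos.2 ⟨c, hc⟩
  omega

/-- no branch set of a model of a Kuratowski graph lies inside a piece `P` which is attached
to at most two further vertices, if the piece is small. -/
theorem no_branch_in_piece (hK : Kur K) (hB : IsModel K G B) {A : Set V} (hA : ∀ k, B k ⊆ A)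
    {P S : Finset V} (hPS : P ⊆ S) (hcl : ∀ x ∈ P, ∀ y ∈ A, G.Adj x y → y ∈ S)
    (hS2 : S.card ≤ P.card + 2) (hS5 : S.card ≤ 5)
    (htri : S.card = 5 → ∀ a ∈ P, ∀ b ∈ P, ∀ c ∈ P, G.Adj a b → G.Adj b c → G.Adj a c → False)
    (k : κ) : ¬ B k ⊆ P := by
  classical
  intro hk
  have hB' := (isModel_iff _ _ _).1 hB
  have hSP : (S \ P).card ≤ 2 := by
    have := Finset.card_sdiff_add_card_eq_card hPS
    omega
  -- a branch set meeting P and avoiding S \ P is inside P
  have hin : ∀ l, (∃ y ∈ B l, y ∈ S) → (¬ ∃ x ∈ S \ P, x ∈ B l) → B l ⊆ (P : Set V) := by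
    intro l hl1 hl2
    have hmem : ∀ y ∈ B l, y ∈ S → y ∈ P := by
      intro y hy hyS
      by_contra hyP
      exact hl2 ⟨y, Finset.mem_sdiff.2 ⟨hyS, hyP⟩, hy⟩
    apply (hB'.1 l).subset_of_closed
    · obtain ⟨y, hy, hyS⟩ := hl1
      exact ⟨y, hy, hmem y hy hyS⟩
    · intro a _ haP b hb hab
      exact hmem b hb (hcl a haP b (hA l hb) hab)
  -- a neighbour l of k inside P
  obtain ⟨s, hs3, hsadj⟩ := hK.deg3 k
  have hex : ∃ l ∈ s, ¬ ∃ x ∈ S \ P, x ∈ B l := by
    by_contra hcon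
    push Not at hcon
    have := card_meet_le hB'.2.1 (S \ P) s hcon
    omega
  obtain ⟨l, hls, hl⟩ := hex
  have hkl := hsadj l hls
  have hmeet_nbr : ∀ k', B k' ⊆ (P : Set V) → ∀ m, K.Adj k' m → ∃ y ∈ B m, y ∈ S := by
    intro k' hk' m hm
    obtain ⟨x, hx, y, hy, hxy⟩ := hB'.2.2 k' m hm
    exact ⟨y, hy, hcl x (hk' hx) y (hA m hy) hxy⟩
  have hlP : B l ⊆ (P : Set V) := hin l (hmeet_nbr k hk l hkl) hl
  have hall : ∀ m, ∃ y ∈ S, y ∈ B m := by
    intro m
    rcases hK.dom k l hkl m with h | h | h | h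
    · subst h
      obtain ⟨x, hx⟩ := (hB'.1 m).1
      exact ⟨x, hPS (hk hx), hx⟩
    · subst h
      obtain ⟨x, hx⟩ := (hB'.1 m).1
      exact ⟨x, hPS (hlP hx), hx⟩
    · obtain ⟨y, hy, hyS⟩ := hmeet_nbr k hk m h
      exact ⟨y, hyS, hy⟩
    · obtain ⟨y, hy, hyS⟩ := hmeet_nbr l hlP m h
      exact ⟨y, hyS, hy⟩
  have hcard : Fintype.card κ ≤ S.card := by
    have := card_meet_le hB'.2.1 S Finset.univ (fun m _ => hall m)
    rwa [Finset.card_univ] at this
  rcases hK.card_cases with ⟨h5, hcomp⟩ | h6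
  · have hS : S.card = 5 := by omega
    -- three branch sets inside P
    let Y : Finset κ := Finset.univ.filter fun m => ∃ x ∈ S \ P, x ∈ B m
    have hY : Y.card ≤ 2 := by
      refine le_trans (card_meet_le hB'.2.1 (S \ P) Y ?_) hSP
      intro m hm
      exact (Finset.mem_filter.1 hm).2
    have hYc : 3 ≤ (Yᶜ).card := by
      rw [Finset.card_compl, h5]
      omega
    obtain ⟨t, htY, ht3⟩ := Finset.exists_subset_card_eq hYc
    rw [Finset.card_eq_three] at ht3
    obtain ⟨m1, m2, m3, h12, h13, h23, rfl⟩ := ht3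
    have hmP : ∀ m ∈ ({m1, m2, m3} : Finset κ), B m ⊆ (P : Set V) := by
      intro m hm
      have h1 : m ∉ Y := Finset.mem_compl.1 (htY hm)
      apply hin m
      · obtain ⟨y, hyS, hy⟩ := hall m
        exact ⟨y, hy, hyS⟩
      · intro h2
        exact h1 (Finset.mem_filter.2 ⟨Finset.mem_univ _, h2⟩)
    have hpick : ∀ m ∈ ({m1, m2, m3} : Finset κ), ∃ x ∈ P, B m = {x} := by
      intro m hm
      obtain ⟨x, hx⟩ := (hB'.1 m).1
      refine ⟨x, hmP m hm hx, Set.eq_singleton_iff_unique_mem.2 ⟨hx, fun y hy => ?_⟩⟩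
      exact meet_unique hB'.2.1 (by omega) hall (hPS (hmP m hm hy)) (hPS (hmP m hm hx)) hy hx
    obtain ⟨x1, hx1, e1⟩ := hpick m1 (by simp)
    obtain ⟨x2, hx2, e2⟩ := hpick m2 (by simp)
    obtain ⟨x3, hx3, e3⟩ := hpick m3 (by simp)
    have hadj : ∀ m m' x x', m ≠ m' → B m = {x} → B m' = {x'} → G.Adj x x' := by
      intro m m' x x' hne hm hm'
      obtain ⟨a, ha, b, hb, hab⟩ := hB'.2.2 m m' (hcomp m m' hne)
      rw [hm, Set.mem_singleton_iff] at ha
      rw [hm', Set.mem_singleton_iff] at hb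
      rwa [ha, hb] at hab
    exact htri hS x1 hx1 x2 hx2 x3 hx3 (hadj m1 m2 _ _ h12 e1 e2) (hadj m2 m3 _ _ h23 e2 e3)
      (hadj m1 m3 _ _ h13 e1 e3)
  · omega

end Piece

end NApexGraphs
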