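import Pool.Agent.Helper58.Apex.Basic

/-!
# Reduction of minor-minimality to single edges
-/

namespace NApexGraphs

open SimpleGraph

universe u v w

variable {κ : Type u} {V : Type v} {W : Type w}

/-- no model of `K` avoiding `X` survives the deletion or the contraction of the edge `xy` -/
def EdgeKills (K : SimpleGraph κ) (G : SimpleGraph V) (x y : V) (X : Set V) : Prop :=
  (∀ B : κ → Set V, IsModel K (G.deleteEdges {s(x, y)}) B → (∀ k, B k ⊆ Xᶜ) → False) ∧
  (∀ B : κ → Set V, IsModel K G B → (∀ k, B k ⊆ Xᶜ) → ∀ k, x ∈ B k → y ∈ B k → False)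

theorem EdgeKills.symm {K : SimpleGraph κ} {G : SimpleGraph V} {x y : V} {X : Set V}
    (h : EdgeKills K G x y X) : EdgeKills K G y x X := by
  refine ⟨?_, fun B hB hX k h1 h2 => h.2 B hB hX k h2 h1⟩
  rw [Sym2.eq_swap]
  exact h.1

/-- a model none of whose branch sets contains `x` is a model after deletion of the edge `xy` -/
theorem IsModel.deleteEdge_of_notMem {K : SimpleGraph κ} {G : SimpleGraph V} {B : κ → Set V}
    (hB : IsModel K G B) {x y : V} (hx : ∀ k, x ∉ B k) :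
    IsModel K (G.deleteEdges {s(x, y)}) B := by
  rw [isModel_iff] at hB ⊢
  have key : ∀ a b : V, (∃ k, a ∈ B k) → (∃ k, b ∈ B k) → G.Adj a b →
      (G.deleteEdges {s(x, y)}).Adj a b := by
    rintro a b ⟨k, hk⟩ ⟨l, hl⟩ hab
    rw [SimpleGraph.deleteEdges_adj]
    refine ⟨hab, ?_⟩
    intro he
    rw [Set.mem_singleton_iff, Sym2.eq_iff] at he
    rcases he with ⟨h1, _⟩ | ⟨_, h2⟩
    · rw [h1] at hk; exact hx k hk
    · rw [h2] at hl; exact hx l hl
  refine ⟨?_, hB.2.1, ?_⟩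
  · intro k
    exact (hB.1 k).mono fun a ha b hb hab => key a b ⟨k, ha⟩ ⟨k, hb⟩ hab
  · intro k l hkl
    obtain ⟨a, ha, b, hb, hab⟩ := hB.2.2 k l hkl
    exact ⟨a, ha, b, hb, key a b ⟨k, ha⟩ ⟨l, hb⟩ hab⟩

theorem IsModel.mono {K : SimpleGraph κ} {G G' : SimpleGraph V} {B : κ → Set V}
    (hB : IsModel K G B) (h : G ≤ G') : IsModel K G' B := by
  rw [isModel_iff] at hB ⊢
  refine ⟨fun k => (hB.1 k).mono fun a _ b _ hab => h hab, hB.2.1, ?_⟩
  intro k l hkl
  obtain ⟨a, ha, b, hb, hab⟩ := hB.2.2 k l hkl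
  exact ⟨a, ha, b, hb, h hab⟩

/-- The three ways of being a proper minor. -/
theorem proper_minor_cases {H : SimpleGraph W} {G : SimpleGraph V}
    (hiso : ∀ v, ∃ w, G.Adj v w) (hm : IsMinor H G) (hne : IsEmpty (H ≃g G)) :
    ∃ x y, G.Adj x y ∧ ((∃ A, IsModel H (G.deleteEdges {s(x, y)}) A) ∨
      ∃ A, IsModel H G A ∧ ∃ w, x ∈ A w ∧ y ∈ A w) := by
  classical
  obtain ⟨A, hA⟩ := hm
  have hA' := (isModel_iff _ _ _).1 hA
  by_cases h1 : ∃ w, ∃ a ∈ A w, ∃ b ∈ A w, a ≠ b
  · obtain ⟨w, a, ha, b, hb, hab⟩ := h1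
    obtain ⟨x, hx, hxa, y, hy, hya, hxy⟩ := (hA'.1 w).exists_edge (A := {a}) ⟨a, ha, rfl⟩
      ⟨b, hb, fun h => hab h.symm⟩
    exact ⟨x, y, hxy, Or.inr ⟨A, hA, w, hx, hy⟩⟩
  · push Not at h1
    have hsing : ∀ w, ∃ a, A w = {a} := by
      intro w
      obtain ⟨a, ha⟩ := (hA'.1 w).1
      refine ⟨a, Set.eq_singleton_iff_unique_mem.2 ⟨ha, fun b hb => h1 w b hb a ha⟩⟩
    choose a ha using hsing
    have hinj : Function.Injective a := by
      intro w w' hww
      by_contra hne'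
      have := hA'.2.1 w w' hne'
      rw [ha w, ha w', hww] at this
      simp at this
    have hadj : ∀ w w', H.Adj w w' → G.Adj (a w) (a w') := by
      intro w w' hww
      obtain ⟨x, hx, y, hy, hxy⟩ := hA'.2.2 w w' hww
      rw [ha w] at hx
      rw [ha w'] at hy
      rw [Set.mem_singleton_iff] at hx hy
      rwa [hx, hy] at hxy
    by_cases h2 : ∃ v, ∀ w, a w ≠ v
    · obtain ⟨v, hv⟩ := h2
      obtain ⟨y, hy⟩ := hiso v
      refine ⟨v, y, hy, Or.inl ⟨A, hA.deleteEdge_of_notMem ?_⟩⟩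
      intro k hk
      rw [ha k] at hk
      exact hv k (Set.mem_singleton_iff.1 hk).symm
    · push Not at h2
      by_cases h3 : ∃ w w', G.Adj (a w) (a w') ∧ ¬ H.Adj w w'
      · obtain ⟨w, w', hG, hH⟩ := h3
        refine ⟨a w, a w', hG, Or.inl ⟨A, ?_⟩⟩
        rw [isModel_iff]
        refine ⟨?_, hA'.2.1, ?_⟩
        · intro k
          rw [ha k]
          exact Conn.singleton _ _
        · intro k l hkl
          refine ⟨a k, by rw [ha k]; rfl, a l, by rw [ha l]; rfl, ?_⟩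
          rw [SimpleGraph.deleteEdges_adj]
          refine ⟨hadj k l hkl, ?_⟩
          intro he
          rw [Set.mem_singleton_iff, Sym2.eq_iff] at he
          rcases he with ⟨e1, e2⟩ | ⟨e1, e2⟩
          · rw [hinj e1, hinj e2] at hkl
            exact hH hkl
          · rw [hinj e1, hinj e2] at hkl
            exact hH hkl.symm
      · push Not at h3
        exfalso
        let f : H ≃g G :=
          { toEquiv := Equiv.ofBijective a ⟨hinj, fun v => h2 v⟩
            map_rel_iff' := by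
              intro w w'
              exact ⟨fun h => h3 w w' h, fun h => hadj w w' h⟩ }
        exact hne.false f

theorem minMinimal_of_edges [Finite V] (G : SimpleGraph V) (n : ℕ)
    (hnot : ¬ NApex n G) (hiso : ∀ v, ∃ w, G.Adj v w)
    (hedge : ∀ x y, G.Adj x y → ∃ X : Finset V, X.card ≤ n ∧
      EdgeKills K5 G x y (X : Set V) ∧ EdgeKills K33 G x y (X : Set V)) :
    MinMinimal n G := by
  classical
  refine ⟨hnot, ?_⟩
  intro m H hm hne
  obtain ⟨x, y, hxy, hcase⟩ := proper_minor_cases hiso hm hne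
  obtain ⟨X, hX, h5, h6⟩ := hedge x y hxy
  -- the model
  obtain ⟨A, hAG, hA⟩ : ∃ A : Fin m → Set V, IsModel H G A ∧
      (IsModel H (G.deleteEdges {s(x, y)}) A ∨ ∃ w, x ∈ A w ∧ y ∈ A w) := by
    rcases hcase with ⟨A, hA⟩ | ⟨A, hA, hw⟩
    · exact ⟨A, hA.mono (SimpleGraph.deleteEdges_le _), Or.inl hA⟩
    · exact ⟨A, hA, Or.inr hw⟩
  let Y : Finset (Fin m) := Finset.univ.filter fun w => ∃ x ∈ X, x ∈ A w
  have hY : ∀ w, w ∉ Y → A w ⊆ (X : Set V)ᶜ := by
    intro w hw z hz hzX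
    apply hw
    simp only [Y, Finset.mem_filter, Finset.mem_univ, true_and]
    exact ⟨z, hzX, hz⟩
  have main : ∀ (κ : Type) (K : SimpleGraph κ), EdgeKills K G x y (X : Set V) →
      ¬ IsMinor K (H.induce ((Y : Set (Fin m))ᶜ)) := by
    intro κ K hK hmin
    rw [isMinor_induce_iff] at hmin
    obtain ⟨D, hD, hDY⟩ := hmin
    have hsub : ∀ k, (⋃ h ∈ D k, A h) ⊆ (X : Set V)ᶜ := by
      intro k
      apply Set.iUnion₂_subset
      intro h hh
      exact hY h (hDY k hh)
    rcases hA with hA | ⟨w, hxw, hyw⟩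
    · exact hK.1 _ (hD.comp hA) hsub
    · by_cases hk : ∃ k, w ∈ D k
      · obtain ⟨k, hk⟩ := hk
        exact hK.2 _ (hD.comp hAG) hsub k (Set.mem_biUnion hk hxw) (Set.mem_biUnion hk hyw)
      · push Not at hk
        refine hK.1 _ ((hD.comp hAG).deleteEdge_of_notMem ?_) hsub
        intro k hxk
        obtain ⟨h, hh, hxh⟩ := Set.mem_iUnion₂.1 hxk
        have hne' : h ≠ w := by
          rintro rfl
          exact hk k hh
        exact Set.disjoint_left.1 (hAG.2.1 h w hne') hxh hxw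
  refine ⟨Y, ?_, main _ _ h5, main _ _ h6⟩
  refine le_trans (card_meet_le (B := A) hAG.2.1 X Y ?_) hX
  intro k hk
  exact (Finset.mem_filter.1 hk).2

end NApexGraphs
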