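import Pool.Agent.Helper58.Apex.TripleTerm

/-!
# Counting the glued graphs up to isomorphism
-/

namespace NApexGraphs

open SimpleGraph

variable {m : ℕ} {t t' : Triple m → Glue}

theorem attach_odd {T : Triple m} {j : Fin 3} (h : t T = Glue.odd j) (i : ℕ) (u : Fin m) :
    (t T).attach T i u ↔ (i = 0 ↔ u = T.1.orderEmbOfFin T.2 j) := by
  rw [h]; rfl

theorem attach_not_odd {T : Triple m} (h : ∀ j, t T ≠ Glue.odd j) (i : ℕ) (u : Fin m) :
    (t T).attach T i u := by
  cases h' : t T with
  | side => trivial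
  | five => trivial
  | odd j => exact absurd h' (h j)

theorem inner_odd {T : Triple m} {j : Fin 3} (h : t T = Glue.odd j) (i k : ℕ) :
    (t T).inner i k ↔ ¬ (i = 0 ↔ k = 0) := by
  rw [h]; rfl

/-- an isomorphism fixing all terminals is only possible between equal assignments -/
theorem eq_of_iso_fix (φ : tripleGraph m t ≃g tripleGraph m t')
    (hφ : ∀ u, φ (Sum.inl u) = Sum.inl u) : t = t' := by
  have hpriv : ∀ p, ∃ q, φ (Sum.inr p) = Sum.inr q := by
    intro p
    rcases h : φ (Sum.inr p) with v | q
    · rw [← hφ v] at h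
      exact absurd (φ.injective h) (by simp)
    · exact ⟨q, rfl⟩
  have hadj : ∀ p q, φ (Sum.inr p) = Sum.inr q → ∀ u,
      ((u ∈ p.1.1 ∧ (t p.1).attach p.1 p.2.val u) ↔
        (u ∈ q.1.1 ∧ (t' q.1).attach q.1 q.2.val u)) := by
    intro p q hpq u
    rw [← adj_rl, ← adj_rl, ← hpq, ← hφ u, φ.map_adj_iff]
  have hadj2 : ∀ p q p' q', φ (Sum.inr p) = Sum.inr q → φ (Sum.inr p') = Sum.inr q' →
      ((p.1 = p'.1 ∧ (t p.1).inner p.2.val p'.2.val) ↔
        (q.1 = q'.1 ∧ (t' q.1).inner q.2.val q'.2.val)) := by
    intro p q p' q' h h'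
    rw [← adj_rr, ← adj_rr, ← h, ← h', φ.map_adj_iff]
  have eq_of_subset : ∀ S T : Triple m, S.1 ⊆ T.1 → T = S := by
    intro S T h
    exact Subtype.ext (Finset.eq_of_subset_of_card_le h (by rw [S.2, T.2])).symm
  funext T
  have hs0 : 0 < (t T).size := by rcases (t T).size_cases with h | h <;> omega
  have hs1 : 1 < (t T).size := by rcases (t T).size_cases with h | h <;> omega
  obtain ⟨q, hq⟩ := hpriv ⟨T, ⟨0, hs0⟩⟩
  obtain ⟨r, hr⟩ := hpriv ⟨T, ⟨1, hs1⟩⟩
  have hq' := hadj _ _ hq
  have hr' := hadj _ _ hr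
  have hqr := hadj2 _ _ _ _ hq hr
  simp only at hq' hr' hqr
  obtain ⟨T'', i⟩ := q
  obtain ⟨T3, k⟩ := r
  simp only at hq' hr' hqr
  by_cases hodd : ∃ j, t T = Glue.odd j
  · obtain ⟨j, hj⟩ := hodd
    have hwT : T.1.orderEmbOfFin T.2 j ∈ T.1 := Finset.orderEmbOfFin_mem _ _ _
    -- the second private vertex is adjacent to the first
    have h12 : T'' = T3 ∧ (t' T'').inner i.val k.val :=
      hqr.1 ⟨trivial, (inner_odd hj 0 1).2 (by simp)⟩
    have hTT : T'' = T := by
      apply eq_of_subset
      intro u hu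
      by_cases huw : u = T.1.orderEmbOfFin T.2 j
      · exact ((hq' u).1 ⟨hu, (attach_odd hj 0 u).2 ⟨fun _ => huw, fun _ => rfl⟩⟩).1
      · rw [h12.1]
        exact ((hr' u).1 ⟨hu, (attach_odd hj 1 u).2
          ⟨fun h => absurd h Nat.one_ne_zero, fun h => absurd h huw⟩⟩).1
    subst hTT
    by_cases hodd' : ∃ j', t' T'' = Glue.odd j'
    · obtain ⟨j', hj'⟩ := hodd'
      have hw := (hq' _).1 ⟨hwT, (attach_odd hj 0 _).2 ⟨fun _ => rfl, fun _ => rfl⟩⟩
      rw [attach_odd hj'] at hw
      -- the private vertex is number 0, otherwise it has two terminal neighbours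
      have hi0 : i.val = 0 := by
        by_contra hi0
        have h2 : 2 ≤ (T''.1.erase (T''.1.orderEmbOfFin T''.2 j')).card := by
          rw [Finset.card_erase_of_mem (Finset.orderEmbOfFin_mem _ _ _), T''.2]
        obtain ⟨a, ha, b, hb, hab⟩ := Finset.one_lt_card.1 (show 1 < _ from h2)
        have hone : ∀ a ∈ T''.1.erase (T''.1.orderEmbOfFin T''.2 j'),
            a = T''.1.orderEmbOfFin T''.2 j := by
          intro a ha
          have h3 := (hq' a).2 ⟨Finset.mem_of_mem_erase ha, (attach_odd hj' i.val a).2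
            ⟨fun h => absurd h hi0, fun h => absurd h (Finset.ne_of_mem_erase ha)⟩⟩
          exact ((attach_odd hj 0 a).1 h3.2).1 rfl
        exact hab ((hone a ha).trans (hone b hb).symm)
      have h4 := hw.2.1 hi0
      rw [hj, hj', (T''.1.orderEmbOfFin T''.2).injective h4]
    · exfalso
      push Not at hodd'
      -- all terminals are adjacent
      have h3 : ∀ a ∈ T''.1, a = T''.1.orderEmbOfFin T''.2 j := by
        intro a ha
        have h4 := (hq' a).2 ⟨ha, attach_not_odd hodd' _ _⟩
        exact ((attach_odd hj 0 a).1 h4.2).1 rfl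
      obtain ⟨a, ha, b, hb, hab⟩ := Finset.one_lt_card.1 (show 1 < T''.1.card by
        rw [T''.2]; norm_num)
      exact hab ((h3 a ha).trans (h3 b hb).symm)
  · push Not at hodd
    have hTT : T'' = T := by
      apply eq_of_subset
      intro u hu
      exact ((hq' u).1 ⟨hu, attach_not_odd hodd _ _⟩).1
    subst hTT
    have hodd' : ∀ j', t' T'' ≠ Glue.odd j' := by
      intro j' hj'
      have h3 : ∀ a ∈ T''.1, (i.val = 0 ↔ a = T''.1.orderEmbOfFin T''.2 j') := by
        intro a ha
        exact (attach_odd hj' _ _).1 ((hq' a).1 ⟨ha, attach_not_odd hodd _ _⟩).2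
      have hi0 : i.val = 0 :=
        (h3 _ (Finset.orderEmbOfFin_mem _ _ j')).2 rfl
      obtain ⟨a, ha, b, hb, hab⟩ := Finset.one_lt_card.1 (show 1 < T''.1.card by
        rw [T''.2]; norm_num)
      exact hab (((h3 a ha).1 hi0).trans ((h3 b hb).1 hi0).symm)
    cases hT : t T'' with
    | odd j => exact absurd hT (hodd j)
    | five =>
      have h12 : T'' = T3 ∧ (t' T'').inner i.val k.val := by
        refine hqr.1 ⟨trivial, ?_⟩
        have : (t T'').inner 0 1 := by rw [hT]; exact Nat.zero_ne_one
        exact this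
      cases hT' : t' T'' with
      | odd j => exact absurd hT' (hodd' j)
      | five => rfl
      | side =>
        have h5 := h12.2
        rw [show Glue.inner i.val k.val (t' T'') = Glue.inner i.val k.val Glue.side by
          congr 1] at h5
        exact absurd h5 id
    | side =>
      cases hT' : t' T'' with
      | odd j => exact absurd hT' (hodd' j)
      | side => rfl
      | five =>
        exfalso
        -- another private vertex of the image
        have hsz : (t' T'').size = 2 := by rw [hT']; rfl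
        obtain ⟨k', hk'⟩ : ∃ k' : Fin (t' T'').size, i ≠ k' := by
          by_cases hi : i.val = 0
          · exact ⟨⟨1, by omega⟩, fun h => by rw [h] at hi; exact absurd hi Nat.one_ne_zero⟩
          · exact ⟨⟨0, by omega⟩, fun h => hi (by rw [h])⟩
        have h6 : (tripleGraph m t').Adj (Sum.inr ⟨T'', i⟩) (Sum.inr ⟨T'', k'⟩) := by
          refine (adj_rr _ _).2 ⟨rfl, ?_⟩
          have : ∀ a b : ℕ, a ≠ b → (t' T'').inner a b := by
            intro a b hab; rw [hT']; exact hab
          exact this _ _ fun h => hk' (Fin.ext h)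
        have h7 : (tripleGraph m t).Adj (φ.symm (Sum.inr ⟨T'', i⟩))
            (φ.symm (Sum.inr ⟨T'', k'⟩)) := φ.symm.map_adj_iff.2 h6
        rw [← hq, RelIso.symm_apply_apply] at h7
        rcases h8 : φ.symm (Sum.inr ⟨T'', k'⟩) with v | s
        · have h9 := congrArg φ h8
          rw [RelIso.apply_symm_apply, hφ] at h9
          exact absurd h9 (by simp)
        · rw [h8, adj_rr] at h7
          have h10 := h7.2
          simp only at h10
          rw [show Glue.inner 0 s.2.val (t T'') = Glue.inner 0 s.2.val Glue.side by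
            congr 1] at h10
          exact h10

/-- the isomorphism relation on assignments -/
def isoSetoid (m : ℕ) : Setoid (Triple m → Glue) where
  r t t' := Nonempty (tripleGraph m t ≃g tripleGraph m t')
  iseqv :=
    ⟨fun _ => ⟨RelIso.refl _⟩, fun ⟨e⟩ => ⟨e.symm⟩, fun ⟨e⟩ ⟨f⟩ => ⟨e.trans f⟩⟩

/-- each isomorphism class contains at most `m!` assignments -/
theorem class_card_le (hm : 4 ≤ m) (t : Triple m → Glue) (S : Finset (Triple m → Glue))
    (hS : ∀ t' ∈ S, Nonempty (tripleGraph m t ≃g tripleGraph m t')) :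
    S.card ≤ m.factorial := by
  classical
  have h1 : ∀ t' : S, ∃ (φ : tripleGraph m t ≃g tripleGraph m t'.1) (σ : Fin m → Fin m),
      ∀ u, φ (Sum.inl u) = Sum.inl (σ u) := by
    intro t'
    obtain ⟨φ⟩ := hS t'.1 t'.2
    choose σ hσ using iso_term hm φ
    exact ⟨φ, σ, hσ⟩
  choose φ σ hσ using h1
  have hσinj : ∀ t', Function.Injective (σ t') := by
    intro t' u v huv
    have h2 := hσ t' u
    rw [huv, ← hσ t' v] at h2
    exact Sum.inl_injective ((φ t').injective h2)
  have h2 : Fintype.card S ≤ Fintype.card (Equiv.Perm (Fin m)) := by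
    apply Fintype.card_le_of_injective
      (fun t' => Equiv.ofBijective (σ t') (Finite.injective_iff_bijective.1 (hσinj t')))
    intro t1 t2 h12
    have h3 : σ t1 = σ t2 := by
      funext u
      have := congrArg (fun e : Equiv.Perm (Fin m) => e u) h12
      simpa using this
    apply Subtype.ext
    apply eq_of_iso_fix ((φ t1).symm.trans (φ t2))
    intro u
    -- u = σ v
    obtain ⟨v, hv⟩ := (Finite.injective_iff_bijective.1 (hσinj t1)).2 u
    rw [RelIso.trans_apply, ← hv, ← hσ t1 v, RelIso.symm_apply_apply, hσ t2 v, h3]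
  rw [Fintype.card_coe, Fintype.card_perm, Fintype.card_fin] at h2
  exact h2

theorem card_assignments (m : ℕ) :
    Fintype.card (Triple m → Glue) = 5 ^ (m.choose 3) := by
  classical
  rw [Fintype.card_fun]
  have h1 : Fintype.card Glue = 5 := rfl
  have h2 : Fintype.card (Triple m) = m.choose 3 := by
    rw [Fintype.card_subtype]
    have : (Finset.univ.filter fun T : Finset (Fin m) => T.card = 3) =
        Finset.powersetCard 3 Finset.univ := by
      ext T
      simp [Finset.mem_powersetCard]
    rw [this, Finset.card_powersetCard, Finset.card_univ, Fintype.card_fin]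
  rw [h1, h2]

/-- many pairwise non-isomorphic glued graphs -/
theorem many (hm : 4 ≤ m) : ∃ (N : ℕ) (t : Fin N → (Triple m → Glue)),
    5 ^ (m.choose 3) ≤ N * m.factorial ∧
    ∀ i j, i ≠ j → IsEmpty (tripleGraph m (t i) ≃g tripleGraph m (t j)) := by
  classical
  let f : (Triple m → Glue) → Quotient (isoSetoid m) := Quotient.mk (isoSetoid m)
  let Q : Finset (Quotient (isoSetoid m)) := Finset.univ.image f
  have hcard : (Finset.univ : Finset (Triple m → Glue)).card ≤ m.factorial * Q.card := by
    apply Finset.card_le_mul_card_image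
    intro b _
    obtain ⟨t, rfl⟩ := Quotient.exists_rep b
    apply class_card_le hm t
    intro t' ht'
    have h1 := (Finset.mem_filter.1 ht').2
    have h2 : Nonempty (tripleGraph m t' ≃g tripleGraph m t) := Quotient.exact h1
    obtain ⟨e⟩ := h2
    exact ⟨e.symm⟩
  rw [Finset.card_univ, card_assignments] at hcard
  refine ⟨Q.card, fun i => Quotient.out (Q.equivFin.symm i).1, by rw [mul_comm]; exact hcard, ?_⟩
  intro i j hij
  constructor
  intro e
  apply hij
  have h1 : (Q.equivFin.symm i).1 = (Q.equivFin.symm j).1 := by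
    rw [← Quotient.out_eq (Q.equivFin.symm i).1, ← Quotient.out_eq (Q.equivFin.symm j).1]
    exact Quotient.sound ⟨e⟩
  exact Q.equivFin.symm.injective (Subtype.ext h1)

end NApexGraphs
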