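import Pool.Agent.Helper58.Apex.Defs

/-!
# The graphs obtained by gluing a Kuratowski graph to every triple of terminals
-/

namespace NApexGraphs

/-- the three-element sets of terminals -/
abbrev Triple (m : ℕ) := {T : Finset (Fin m) // T.card = 3}

/-- The five ways in which a Kuratowski graph can be glued along three of its vertices:
`side` is `K₃,₃` with the three terminals forming one side, `five` is `K₅` with three of its
vertices as terminals, and `odd j` is `K₃,₃` with the `j`-th terminal on one side and the two
other terminals on the other side. -/
inductive Glue
  | side
  | five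
  | odd (j : Fin 3)
  deriving DecidableEq, Fintype

namespace Glue

/-- the number of private vertices (the vertices of the Kuratowski graph which are not
terminals). -/
def size : Glue → ℕ
  | side => 3
  | five => 2
  | odd _ => 3

/-- Which terminals `u ∈ T` are adjacent to the `i`-th private vertex.  In the case `odd j` the
private vertex `0` is adjacent to the `j`-th terminal only, and the private vertices `1`, `2` are
adjacent to the two other terminals only. -/
def attach {m : ℕ} (T : Triple m) (i : ℕ) (u : Fin m) : Glue → Prop
  | side => True
  | five => True
  | odd j => (i = 0 ↔ u = T.1.orderEmbOfFin T.2 j)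

/-- Which private vertices of the same gadget are adjacent. -/
def inner (i j : ℕ) : Glue → Prop
  | side => False
  | five => i ≠ j
  | odd _ => ¬ (i = 0 ↔ j = 0)

theorem inner_symm (g : Glue) (i j : ℕ) (h : g.inner i j) : g.inner j i := by
  cases g with
  | side => exact h
  | five => exact Ne.symm h
  | odd _ => exact fun h' => h h'.symm

theorem inner_irrefl (g : Glue) (i : ℕ) : ¬ g.inner i i := by
  cases g with
  | side => exact id
  | five => exact fun h => h rfl
  | odd _ => exact fun h => h Iff.rfl

end Glue

/-- The vertices: the terminals, and the private vertices of all gadgets. -/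
abbrev Vert (m : ℕ) (t : Triple m → Glue) := Fin m ⊕ (Σ T : Triple m, Fin (t T).size)

/-- The graph with terminals `Fin m` in which, for every triple `T` of terminals, a Kuratowski
graph is glued to `T` in the way `t T`; there are no edges between terminals (the edges of the
Kuratowski graphs between terminals are left out). -/
def tripleGraph (m : ℕ) (t : Triple m → Glue) : SimpleGraph (Vert m t) where
  Adj x y :=
    match x, y with
    | Sum.inl _, Sum.inl _ => False
    | Sum.inl u, Sum.inr p => u ∈ p.1.1 ∧ (t p.1).attach p.1 p.2.val u
    | Sum.inr p, Sum.inl u => u ∈ p.1.1 ∧ (t p.1).attach p.1 p.2.val u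
    | Sum.inr p, Sum.inr q => p.1 = q.1 ∧ (t p.1).inner p.2.val q.2.val
  symm := by
    constructor
    rintro (u | ⟨T, i⟩) (v | ⟨T', i'⟩) h
    · exact h
    · exact h
    · exact h
    · obtain ⟨h1, h2⟩ := h
      change T = T' at h1
      subst h1
      exact ⟨rfl, Glue.inner_symm _ _ _ h2⟩
  loopless := by
    constructor
    rintro (u | p) h
    · exact h
    · exact Glue.inner_irrefl _ _ h.2

end NApexGraphs
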