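import Pool.Agent.Helper58.Apex.Core
import Pool.Agent.Helper58.Apex.TripleDefs

/-!
# The glued graphs: deleting or contracting one edge
-/

namespace NApexGraphs

open SimpleGraph

variable {m : ℕ} {t : Triple m → Glue}

theorem adj_lr (u : Fin m) (p : Σ T : Triple m, Fin (t T).size) :
    (tripleGraph m t).Adj (Sum.inl u) (Sum.inr p) ↔
      u ∈ p.1.1 ∧ (t p.1).attach p.1 p.2.val u := Iff.rfl

theorem adj_rl (u : Fin m) (p : Σ T : Triple m, Fin (t T).size) :
    (tripleGraph m t).Adj (Sum.inr p) (Sum.inl u) ↔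
      u ∈ p.1.1 ∧ (t p.1).attach p.1 p.2.val u := Iff.rfl

theorem adj_ll (u v : Fin m) :
    ¬ (tripleGraph m t).Adj (Sum.inl u) (Sum.inl v) := fun h => h

theorem adj_rr (p q : Σ T : Triple m, Fin (t T).size) :
    (tripleGraph m t).Adj (Sum.inr p) (Sum.inr q) ↔
      p.1 = q.1 ∧ (t p.1).inner p.2.val q.2.val := Iff.rfl

/-- terminals of a gadget -/
def term (t : Triple m → Glue) (S : Finset (Fin m)) : Finset (Vert m t) :=
  S.map ⟨Sum.inl, Sum.inl_injective⟩

/-- private vertices of a gadget -/
def priv (t : Triple m → Glue) (T : Triple m) : Finset (Vert m t) :=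
  (Finset.univ : Finset (Fin (t T).size)).map
    ⟨fun i => Sum.inr ⟨T, i⟩, fun i j h => by simpa using h⟩

theorem mem_term {S : Finset (Fin m)} {x : Vert m t} :
    x ∈ term t S ↔ ∃ u ∈ S, x = Sum.inl u := by
  unfold term
  simp only [Finset.mem_map, Function.Embedding.coeFn_mk]
  constructor
  · rintro ⟨u, hu, rfl⟩; exact ⟨u, hu, rfl⟩
  · rintro ⟨u, hu, rfl⟩; exact ⟨u, hu, rfl⟩

theorem mem_priv {T : Triple m} {x : Vert m t} :
    x ∈ priv t T ↔ ∃ i : Fin (t T).size, x = Sum.inr ⟨T, i⟩ := by
  unfold priv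
  simp only [Finset.mem_map, Finset.mem_univ, true_and]
  constructor
  · rintro ⟨u, rfl⟩; exact ⟨u, rfl⟩
  · rintro ⟨u, rfl⟩; exact ⟨u, rfl⟩

theorem mem_priv_inr {T : Triple m} {p : Σ T : Triple m, Fin (t T).size} :
    (Sum.inr p : Vert m t) ∈ priv t T ↔ p.1 = T := by
  rw [mem_priv]
  constructor
  · rintro ⟨i, hi⟩
    rw [Sum.inr.injEq] at hi
    rw [hi]
  · rintro rfl
    exact ⟨p.2, rfl⟩

theorem card_term (S : Finset (Fin m)) : (term t S).card = S.card := Finset.card_map _

theorem card_priv (T : Triple m) : (priv t T).card = (t T).size := by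
  unfold priv
  rw [Finset.card_map, Finset.card_univ, Fintype.card_fin]

theorem Glue.size_cases (g : Glue) : g.size = 2 ∨ g.size = 3 := by
  cases g
  · exact Or.inr rfl
  · exact Or.inl rfl
  · exact Or.inr rfl

/-- the neighbours of a private vertex -/
theorem nbr_priv {T : Triple m} {x y : Vert m t} (hx : x ∈ priv t T)
    (h : (tripleGraph m t).Adj x y) : y ∈ term t T.1 ∪ priv t T := by
  obtain ⟨i, rfl⟩ := mem_priv.1 hx
  rcases y with u | q
  · rw [adj_rl] at h
    exact Finset.mem_union_left _ (mem_term.2 ⟨u, h.1, rfl⟩)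
  · rw [adj_rr] at h
    exact Finset.mem_union_right _ (mem_priv_inr.2 h.1.symm)

/-- the degree of private vertices -/
theorem deg_priv (T : Triple m) (x : Vert m t) (hx : x ∈ priv t T) :
    ∃ N : Finset (Vert m t), N.card + ((term t T.1).card + (priv t T).card) ≤ 9 ∧
      ∀ y, (tripleGraph m t).Adj x y → y ∈ N := by
  classical
  rw [card_term, card_priv, T.2]
  obtain ⟨i, rfl⟩ := mem_priv.1 hx
  cases h : t T with
  | side =>
    refine ⟨term t T.1, ?_, ?_⟩
    · rw [card_term, T.2]; simp [Glue.size]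
    · rintro (u | q) hy
      · rw [adj_rl] at hy
        exact mem_term.2 ⟨u, hy.1, rfl⟩
      · rw [adj_rr] at hy
        have h2 := hy.2
        simp only at h2
        exfalso
        rw [show Glue.inner i.val q.2.val (t T) = Glue.inner i.val q.2.val Glue.side by
          congr 1] at h2
        exact h2
  | five =>
    refine ⟨(term t T.1 ∪ priv t T).erase (Sum.inr ⟨T, i⟩), ?_, ?_⟩
    · rw [Finset.card_erase_of_mem (Finset.mem_union_right _ hx)]
      have h1 := Finset.card_union_le (term t T.1) (priv t T)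
      rw [card_term, card_priv, T.2] at h1
      have h2 : (t T).size = 2 := by rw [h]; rfl
      have h3 : Glue.five.size = 2 := rfl
      omega
    · intro y hy
      exact Finset.mem_erase.2 ⟨hy.ne', nbr_priv hx hy⟩
  | odd j =>
    have h3 : (Glue.odd j).size = 3 := rfl
    have hw : T.1.orderEmbOfFin T.2 j ∈ T.1 := Finset.orderEmbOfFin_mem _ _ _
    by_cases hi : i.val = 0
    · refine ⟨insert (Sum.inl (T.1.orderEmbOfFin T.2 j))
        ((priv t T).erase (Sum.inr ⟨T, i⟩)), ?_, ?_⟩
      · have h4 := Finset.card_insert_le (Sum.inl (T.1.orderEmbOfFin T.2 j) : Vert m t)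
          ((priv t T).erase (Sum.inr ⟨T, i⟩))
        rw [Finset.card_erase_of_mem hx, card_priv] at h4
        have h2 : (t T).size = 3 := by rw [h]; rfl
        omega
      · rintro (u | q) hy
        · rw [adj_rl] at hy
          have h5 := hy.2
          simp only at h5
          rw [show Glue.attach T i.val u (t T) = Glue.attach T i.val u (Glue.odd j) by
            congr 1] at h5
          have h6 : u = T.1.orderEmbOfFin T.2 j := h5.1 hi
          rw [h6]
          exact Finset.mem_insert_self _ _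
        · apply Finset.mem_insert_of_mem
          refine Finset.mem_erase.2 ⟨hy.ne', ?_⟩
          rw [adj_rr] at hy
          exact mem_priv_inr.2 hy.1.symm
    · refine ⟨insert (Sum.inr ⟨T, ⟨0, by rw [h]; exact Nat.succ_pos 2⟩⟩)
        (term t (T.1.erase (T.1.orderEmbOfFin T.2 j))), ?_, ?_⟩
      · have h4 := Finset.card_insert_le (Sum.inr ⟨T, ⟨0, by rw [h]; exact Nat.succ_pos 2⟩⟩ : Vert m t)
          (term t (T.1.erase (T.1.orderEmbOfFin T.2 j)))
        rw [card_term, Finset.card_erase_of_mem hw, T.2] at h4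
        omega
      · rintro (u | q) hy
        · rw [adj_rl] at hy
          have h5 := hy.2
          simp only at h5
          rw [show Glue.attach T i.val u (t T) = Glue.attach T i.val u (Glue.odd j) by
            congr 1] at h5
          apply Finset.mem_insert_of_mem
          refine mem_term.2 ⟨u, Finset.mem_erase.2 ⟨?_, hy.1⟩, rfl⟩
          intro h6
          exact hi (h5.2 h6)
        · rw [adj_rr] at hy
          obtain ⟨h7, h5⟩ := hy
          obtain ⟨T', i'⟩ := q
          change T = T' at h7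
          subst h7
          simp only at h5
          rw [show Glue.inner i.val i'.val (t T) = Glue.inner i.val i'.val (Glue.odd j) by
            congr 1] at h5
          have h8 : i'.val = 0 := by
            by_contra h9
            exact h5 ⟨fun h => absurd h hi, fun h => absurd h h9⟩
          apply Finset.mem_insert.2
          left
          congr 2
          exact Fin.ext h8

/-- triangles of private vertices only occur in `K₅` -/
theorem no_tri {T : Triple m} (hT : (t T).size = 3) {a b c : Vert m t} (ha : a ∈ priv t T)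
    (hb : b ∈ priv t T) (hc : c ∈ priv t T) (hab : (tripleGraph m t).Adj a b)
    (hbc : (tripleGraph m t).Adj b c) (hac : (tripleGraph m t).Adj a c) : False := by
  obtain ⟨i, rfl⟩ := mem_priv.1 ha
  obtain ⟨j, rfl⟩ := mem_priv.1 hb
  obtain ⟨k, rfl⟩ := mem_priv.1 hc
  have h1 := ((adj_rr _ _).1 hab).2
  have h2 := ((adj_rr _ _).1 hbc).2
  have h3 := ((adj_rr _ _).1 hac).2
  simp only at h1 h2 h3
  revert h1 h2 h3
  generalize i.val = i'
  generalize j.val = j'
  generalize k.val = k'
  cases h : t T with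
  | side => exact fun h1 _ _ => h1
  | five => rw [h] at hT; exact absurd hT (by decide)
  | odd j =>
    intro h1 h2 h3
    simp only [Glue.inner] at h1 h2 h3
    tauto

/-- all branch sets meet the core gadget -/
theorem triple_meet {κ : Type} [Fintype κ] {K : SimpleGraph κ} (hK : Kur K) (T : Triple m)
    {G' : SimpleGraph (Vert m t)} (hG' : G' ≤ tripleGraph m t) {B : κ → Set (Vert m t)}
    (hB : IsModel K G' B) (hA : ∀ k, B k ⊆ ((term t (T.1)ᶜ : Finset (Vert m t)) : Set _)ᶜ)
    (k : κ) : ∃ x ∈ term t T.1 ∪ priv t T, x ∈ B k := by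
  by_contra hcon
  push Not at hcon
  have hterm : ∀ l u, Sum.inl u ∈ B l → u ∈ T.1 := by
    intro l u hu
    by_contra hu'
    exact hA l hu (Finset.mem_coe.2 (mem_term.2 ⟨u, Finset.mem_compl.2 hu', rfl⟩))
  obtain ⟨x, hx⟩ := (hB.conn k).1
  rcases x with u | p
  · exact hcon _ (Finset.mem_union_left _ (mem_term.2 ⟨u, hterm k u hx, rfl⟩)) hx
  · obtain ⟨T', i⟩ := p
    have hne : T' ≠ T := by
      rintro rfl
      exact hcon _ (Finset.mem_union_right _ (mem_priv.2 ⟨i, rfl⟩)) hx
    have hsub : B k ⊆ (priv t T' : Set (Vert m t)) := by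
      apply (hB.conn k).subset_of_closed
      · exact ⟨_, hx, mem_priv.2 ⟨i, rfl⟩⟩
      · intro a _ haP b hb hab
        rcases Finset.mem_union.1 (nbr_priv haP (hG' hab)) with h | h
        · obtain ⟨u, _, rfl⟩ := mem_term.1 h
          exact absurd hb (hcon _ (Finset.mem_union_left _ (mem_term.2 ⟨u, hterm k u hb, rfl⟩)))
        · exact h
    have hcap : (T'.1 ∩ T.1).card ≤ 2 := by
      by_contra h3
      have h4 : T'.1 ∩ T.1 = T'.1 :=
        Finset.eq_of_subset_of_card_le Finset.inter_subset_left (by rw [T'.2]; omega)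
      have h5 : T'.1 ⊆ T.1 := Finset.inter_eq_left.1 h4
      have h6 : T'.1 = T.1 := Finset.eq_of_subset_of_card_le h5 (by rw [T'.2, T.2])
      exact hne (Subtype.ext h6)
    have hScard : (priv t T' ∪ term t (T'.1 ∩ T.1)).card ≤ (priv t T').card + 2 := by
      refine (Finset.card_union_le _ _).trans ?_
      rw [card_term]
      omega
    refine no_branch_in_piece hK hB hA (P := priv t T')
      (S := priv t T' ∪ term t (T'.1 ∩ T.1)) Finset.subset_union_left ?_ hScard ?_ ?_ k hsub
    · intro a ha b hb hab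
      rcases Finset.mem_union.1 (nbr_priv ha (hG' hab)) with h | h
      · obtain ⟨u, hu, rfl⟩ := mem_term.1 h
        refine Finset.mem_union_right _ (mem_term.2 ⟨u, Finset.mem_inter.2 ⟨hu, ?_⟩, rfl⟩)
        by_contra hu'
        exact hb (Finset.mem_coe.2 (mem_term.2 ⟨u, Finset.mem_compl.2 hu', rfl⟩))
      · exact Finset.mem_union_left _ h
    · rw [card_priv] at hScard
      rcases (t T').size_cases with h | h <;> omega
    · intro h5 a ha b hb c hc hab hbc hac
      rw [card_priv] at hScard
      refine no_tri (T := T') ?_ ha hb hc (hG' hab) (hG' hbc) (hG' hac)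
      rcases (t T').size_cases with h | h <;> omega

theorem triple_edge {κ : Type} [Fintype κ] {K : SimpleGraph κ} (hK : Kur K) (T : Triple m)
    {x y : Vert m t} (hx : x ∈ priv t T) (hxy : (tripleGraph m t).Adj x y) :
    EdgeKills K (tripleGraph m t) x y ((term t (T.1)ᶜ : Finset (Vert m t)) : Set (Vert m t)) := by
  classical
  refine core_edge (T0 := term t T.1) (P0 := priv t T) hK (fun a ha b _ hab => nbr_priv ha hab)
    ?_ ?_ ?_ (fun G' hG' B hB hA k => triple_meet hK T hG' hB hA k) hx ?_ hxy rfl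
  · rw [card_term, card_priv, T.2]
    rcases (t T).size_cases with h | h <;> omega
  · rw [card_term, T.2]
  · intro a ha
    obtain ⟨N, h1, h2⟩ := deg_priv T a ha
    exact ⟨N, h1, fun b _ hab => h2 b hab⟩
  · intro hy
    obtain ⟨u, hu, rfl⟩ := mem_term.1 (Finset.mem_coe.1 hy)
    rcases Finset.mem_union.1 (nbr_priv hx hxy) with h | h
    · obtain ⟨v, hv, hv'⟩ := mem_term.1 h
      rw [Sum.inl.injEq] at hv'
      subst hv'
      exact Finset.mem_compl.1 hu hv
    · obtain ⟨i, hi⟩ := mem_priv.1 h
      exact absurd hi (by simp)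

theorem triple_iso (hm : 3 ≤ m) (v : Vert m t) : ∃ w, (tripleGraph m t).Adj v w := by
  classical
  -- every private vertex is adjacent to a terminal and every terminal to a private vertex
  have key : ∀ (T : Triple m) (i : ℕ), ∃ u ∈ T.1, (t T).attach T i u := by
    intro T i
    have hne : T.1.Nonempty := Finset.card_pos.1 (by rw [T.2]; norm_num)
    cases h : t T with
    | side => obtain ⟨u, hu⟩ := hne; exact ⟨u, hu, trivial⟩
    | five => obtain ⟨u, hu⟩ := hne; exact ⟨u, hu, trivial⟩
    | odd j =>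
      by_cases hi : i = 0
      · exact ⟨T.1.orderEmbOfFin T.2 j, Finset.orderEmbOfFin_mem _ _ _, fun _ => rfl, fun _ => hi⟩
      · have h2 : 0 < (T.1.erase (T.1.orderEmbOfFin T.2 j)).card := by
          rw [Finset.card_erase_of_mem (Finset.orderEmbOfFin_mem _ _ _), T.2]; norm_num
        obtain ⟨u, hu⟩ := Finset.card_pos.1 h2
        exact ⟨u, Finset.mem_of_mem_erase hu, fun h => absurd h hi,
          fun h => absurd h (Finset.ne_of_mem_erase hu)⟩
  have key2 : ∀ (T : Triple m) (u : Fin m), ∃ i : Fin (t T).size, (t T).attach T i.val u := by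
    intro T u
    cases h : t T with
    | side => exact ⟨⟨0, by decide⟩, trivial⟩
    | five => exact ⟨⟨0, by decide⟩, trivial⟩
    | odd j =>
      by_cases hu : u = T.1.orderEmbOfFin T.2 j
      · exact ⟨⟨0, Nat.succ_pos 2⟩, fun _ => hu, fun _ => rfl⟩
      · exact ⟨⟨1, Nat.one_lt_succ_succ 1⟩, fun h => absurd h Nat.one_ne_zero, fun h => absurd h hu⟩
  rcases v with u | ⟨T, i⟩
  · have h3 : 2 ≤ (Finset.univ.erase u).card := by
      rw [Finset.card_erase_of_mem (Finset.mem_univ _), Finset.card_univ, Fintype.card_fin]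
      omega
    obtain ⟨s, hs, hc⟩ := Finset.exists_subset_card_eq h3
    have hus : u ∉ s := fun h => Finset.ne_of_mem_erase (hs h) rfl
    let T : Triple m := ⟨insert u s, by rw [Finset.card_insert_of_notMem hus, hc]⟩
    obtain ⟨i, hi⟩ := key2 T u
    exact ⟨Sum.inr ⟨T, i⟩, (adj_lr _ _).2 ⟨Finset.mem_insert_self _ _, hi⟩⟩
  · obtain ⟨u, hu, hau⟩ := key T i.val
    exact ⟨Sum.inl u, (adj_rl _ _).2 ⟨hu, hau⟩⟩

theorem triple_minMinimal {n : ℕ} (t : Triple (n + 3) → Glue)
    (hnot : ¬ NApex n (tripleGraph (n + 3) t)) : MinMinimal n (tripleGraph (n + 3) t) := by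
  classical
  refine minMinimal_of_edges _ n hnot (triple_iso (by omega)) ?_
  have key : ∀ (T : Triple (n + 3)) (x y : Vert (n + 3) t), x ∈ priv t T →
      (tripleGraph (n + 3) t).Adj x y → ∃ X : Finset (Vert (n + 3) t), X.card ≤ n ∧
      EdgeKills K5 (tripleGraph (n + 3) t) x y (X : Set _) ∧
      EdgeKills K33 (tripleGraph (n + 3) t) x y (X : Set _) := by
    intro T x y hx hxy
    refine ⟨term t (T.1)ᶜ, ?_, triple_edge kur_K5 T hx hxy, triple_edge kur_K33 T hx hxy⟩
    rw [card_term, Finset.card_compl, Fintype.card_fin, T.2]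
    omega
  intro x y hxy
  rcases x with u | ⟨T, i⟩
  · rcases y with v | ⟨T, i⟩
    · exact absurd hxy (adj_ll u v)
    · obtain ⟨X, hX, h5, h6⟩ := key T (Sum.inr ⟨T, i⟩) (Sum.inl u) (mem_priv.2 ⟨i, rfl⟩) hxy.symm
      exact ⟨X, hX, h5.symm, h6.symm⟩
  · exact key T _ _ (mem_priv.2 ⟨i, rfl⟩) hxy

end NApexGraphs
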