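import Pool.Agent.Helper58.Apex.TripleMin

/-!
# The glued graphs are not `n`-apex
-/

namespace NApexGraphs

open SimpleGraph

variable {m : ℕ} {t : Triple m → Glue}

theorem priv_disjoint {T T' : Triple m} (h : T ≠ T') :
    Disjoint (priv t T : Set (Vert m t)) (priv t T') := by
  rw [Set.disjoint_left]
  rintro x hx hx'
  obtain ⟨i, rfl⟩ := mem_priv.1 (Finset.mem_coe.1 hx)
  have := mem_priv_inr.1 (Finset.mem_coe.1 hx')
  exact h this

/-- in every gadget a connected set of private vertices is joined to all three terminals -/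
theorem full_link (T : Triple m) : ∃ L : Set (Vert m t), L ⊆ (priv t T : Set (Vert m t)) ∧
    Conn (tripleGraph m t) L ∧ ∀ u ∈ T.1, ∃ a ∈ L, (tripleGraph m t).Adj a (Sum.inl u) := by
  have e0 : ∀ (h : 0 < (t T).size), (Sum.inr ⟨T, ⟨0, h⟩⟩ : Vert m t) ∈ priv t T :=
    fun h => mem_priv.2 ⟨_, rfl⟩
  cases h : t T with
  | side =>
    have hs : 0 < (t T).size := by rw [h]; exact Nat.succ_pos 2
    refine ⟨{Sum.inr ⟨T, ⟨0, hs⟩⟩}, ?_, Conn.singleton _ _, ?_⟩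
    · rw [Set.singleton_subset_iff]; exact e0 hs
    · intro u hu
      refine ⟨_, rfl, (adj_rl _ _).2 ⟨hu, ?_⟩⟩
      simp only
      rw [show Glue.attach T 0 u (t T) = Glue.attach T 0 u Glue.side by congr 1]
      trivial
  | five =>
    have hs : 0 < (t T).size := by rw [h]; exact Nat.succ_pos 1
    refine ⟨{Sum.inr ⟨T, ⟨0, hs⟩⟩}, ?_, Conn.singleton _ _, ?_⟩
    · rw [Set.singleton_subset_iff]; exact e0 hs
    · intro u hu
      refine ⟨_, rfl, (adj_rl _ _).2 ⟨hu, ?_⟩⟩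
      simp only
      rw [show Glue.attach T 0 u (t T) = Glue.attach T 0 u Glue.five by congr 1]
      trivial
  | odd j =>
    have hs : 0 < (t T).size := by rw [h]; exact Nat.succ_pos 2
    have hs1 : 1 < (t T).size := by rw [h]; exact Nat.one_lt_succ_succ 1
    refine ⟨{Sum.inr ⟨T, ⟨0, hs⟩⟩} ∪ {Sum.inr ⟨T, ⟨1, hs1⟩⟩}, ?_, ?_, ?_⟩
    · rintro x (rfl | rfl)
      · exact e0 hs
      · exact mem_priv.2 ⟨_, rfl⟩
    · apply (Conn.singleton _ _).union (Conn.singleton _ _)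
      refine ⟨_, rfl, _, rfl, (adj_rr _ _).2 ⟨rfl, ?_⟩⟩
      simp only
      rw [show Glue.inner 0 1 (t T) = Glue.inner 0 1 (Glue.odd j) by congr 1]
      simp [Glue.inner]
    · intro u hu
      by_cases hw : u = T.1.orderEmbOfFin T.2 j
      · refine ⟨_, Or.inl rfl, (adj_rl _ _).2 ⟨hu, ?_⟩⟩
        simp only
        rw [show Glue.attach T 0 u (t T) = Glue.attach T 0 u (Glue.odd j) by congr 1]
        exact ⟨fun _ => hw, fun _ => rfl⟩
      · refine ⟨_, Or.inr rfl, (adj_rl _ _).2 ⟨hu, ?_⟩⟩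
        simp only
        rw [show Glue.attach T 1 u (t T) = Glue.attach T 1 u (Glue.odd j) by congr 1]
        exact ⟨fun h => absurd h Nat.one_ne_zero, fun h => absurd h hw⟩

/-- after the deletion of one private vertex two terminals are still linked -/
theorem part_link (T : Triple m) (z : Vert m t) :
    ∃ L : Set (Vert m t), ∃ u ∈ T.1, ∃ v ∈ T.1, u ≠ v ∧ L ⊆ (priv t T : Set (Vert m t)) ∧
      z ∉ L ∧ Conn (tripleGraph m t) L ∧ (∃ a ∈ L, (tripleGraph m t).Adj a (Sum.inl u)) ∧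
      ∃ a ∈ L, (tripleGraph m t).Adj a (Sum.inl v) := by
  have hpair : ∀ S : Finset (Fin m), 2 ≤ S.card → ∃ u ∈ S, ∃ v ∈ S, u ≠ v := by
    intro S hS
    obtain ⟨u, hu, v, hv, huv⟩ := Finset.one_lt_card.1 hS
    exact ⟨u, hu, v, hv, huv⟩
  cases h : t T with
  | side =>
    have hs : 0 < (t T).size := by rw [h]; exact Nat.succ_pos 2
    have hs1 : 1 < (t T).size := by rw [h]; exact Nat.one_lt_succ_succ 1
    obtain ⟨u, hu, v, hv, huv⟩ := hpair T.1 (by rw [T.2]; norm_num)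
    have hadj : ∀ (i : Fin (t T).size) (w : Fin m), w ∈ T.1 →
        (tripleGraph m t).Adj (Sum.inr ⟨T, i⟩) (Sum.inl w) := by
      intro i w hw
      refine (adj_rl _ _).2 ⟨hw, ?_⟩
      simp only
      rw [show Glue.attach T i.val w (t T) = Glue.attach T i.val w Glue.side by congr 1]
      trivial
    have hz : ∃ i : Fin (t T).size, z ≠ Sum.inr ⟨T, i⟩ := by
      by_contra hcon
      push Not at hcon
      have h1 := (hcon ⟨0, hs⟩).symm.trans (hcon ⟨1, hs1⟩)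
      simp at h1
    obtain ⟨i, hi⟩ := hz
    exact ⟨{Sum.inr ⟨T, i⟩}, u, hu, v, hv, huv, by
      rw [Set.singleton_subset_iff]; exact mem_priv.2 ⟨i, rfl⟩, fun h => hi (Set.mem_singleton_iff.1 h),
      Conn.singleton _ _,
      ⟨_, rfl, hadj i u hu⟩, ⟨_, rfl, hadj i v hv⟩⟩
  | five =>
    have hs : 0 < (t T).size := by rw [h]; exact Nat.succ_pos 1
    have hs1 : 1 < (t T).size := by rw [h]; exact Nat.one_lt_succ_succ 0
    obtain ⟨u, hu, v, hv, huv⟩ := hpair T.1 (by rw [T.2]; norm_num)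
    have hadj : ∀ (i : Fin (t T).size) (w : Fin m), w ∈ T.1 →
        (tripleGraph m t).Adj (Sum.inr ⟨T, i⟩) (Sum.inl w) := by
      intro i w hw
      refine (adj_rl _ _).2 ⟨hw, ?_⟩
      simp only
      rw [show Glue.attach T i.val w (t T) = Glue.attach T i.val w Glue.five by congr 1]
      trivial
    have hz : ∃ i : Fin (t T).size, z ≠ Sum.inr ⟨T, i⟩ := by
      by_contra hcon
      push Not at hcon
      have h1 := (hcon ⟨0, hs⟩).symm.trans (hcon ⟨1, hs1⟩)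
      simp at h1
    obtain ⟨i, hi⟩ := hz
    exact ⟨{Sum.inr ⟨T, i⟩}, u, hu, v, hv, huv, by
      rw [Set.singleton_subset_iff]; exact mem_priv.2 ⟨i, rfl⟩, fun h => hi (Set.mem_singleton_iff.1 h),
      Conn.singleton _ _,
      ⟨_, rfl, hadj i u hu⟩, ⟨_, rfl, hadj i v hv⟩⟩
  | odd j =>
    have hs2 : 2 < (t T).size := by rw [h]; exact Nat.lt_succ_self 2
    have hs1 : 1 < (t T).size := by rw [h]; exact Nat.one_lt_succ_succ 1
    obtain ⟨u, hu, v, hv, huv⟩ := hpair (T.1.erase (T.1.orderEmbOfFin T.2 j)) (by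
      rw [Finset.card_erase_of_mem (Finset.orderEmbOfFin_mem _ _ _), T.2])
    have hadj : ∀ (i : Fin (t T).size) (w : Fin m), i.val ≠ 0 →
        w ∈ T.1.erase (T.1.orderEmbOfFin T.2 j) →
        (tripleGraph m t).Adj (Sum.inr ⟨T, i⟩) (Sum.inl w) := by
      intro i w hi hw
      refine (adj_rl _ _).2 ⟨Finset.mem_of_mem_erase hw, ?_⟩
      simp only
      rw [show Glue.attach T i.val w (t T) = Glue.attach T i.val w (Glue.odd j) by congr 1]
      exact ⟨fun h => absurd h hi, fun h => absurd h (Finset.ne_of_mem_erase hw)⟩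
    have hz : ∃ i : Fin (t T).size, i.val ≠ 0 ∧ z ≠ Sum.inr ⟨T, i⟩ := by
      by_contra hcon
      push Not at hcon
      have h1 := (hcon ⟨1, hs1⟩ Nat.one_ne_zero).symm.trans (hcon ⟨2, hs2⟩ two_ne_zero)
      simp at h1
    obtain ⟨i, hi0, hi⟩ := hz
    exact ⟨{Sum.inr ⟨T, i⟩}, u, Finset.mem_of_mem_erase hu, v, Finset.mem_of_mem_erase hv, huv, by
      rw [Set.singleton_subset_iff]; exact mem_priv.2 ⟨i, rfl⟩, fun h => hi (Set.mem_singleton_iff.1 h),
      Conn.singleton _ _,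
      ⟨_, rfl, hadj i u hi0 hu⟩, ⟨_, rfl, hadj i v hi0 hv⟩⟩

/-- enlarged terminals -/
def Hubs (t : Triple m → Glue) (X : Set (Vert m t)) (T : Triple m)
    (U : Fin m → Set (Vert m t)) : Prop :=
  (∀ u ∈ T.1, Sum.inl u ∈ U u ∧ Conn (tripleGraph m t) (U u) ∧ U u ⊆ Xᶜ ∧
    Disjoint (U u) (priv t T)) ∧
  ∀ u ∈ T.1, ∀ v ∈ T.1, u ≠ v → Disjoint (U u) (U v) ∧
    ∃ a ∈ U u, ∃ b ∈ U v, (tripleGraph m t).Adj a b

/-- enlarged terminals from links -/
theorem hubs_of_links {X : Set (Vert m t)} {T T1 T2 T3 : Triple m} {a b c : Fin m}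
    (hT : T.1 = {a, b, c}) (hab : a ≠ b) (hbc : b ≠ c) (hac : a ≠ c)
    (h1 : T1 ≠ T) (h2 : T2 ≠ T) (h3 : T3 ≠ T) (h12 : T1 ≠ T2) (h23 : T2 ≠ T3) (h13 : T1 ≠ T3)
    (hX : ∀ u ∈ T.1, Sum.inl u ∉ X)
    (l1 : ∃ L : Set (Vert m t), L ⊆ (priv t T1 : Set (Vert m t)) ∧ L ⊆ Xᶜ ∧
      Conn (tripleGraph m t) L ∧ (∃ x ∈ L, (tripleGraph m t).Adj x (Sum.inl a)) ∧
      ∃ x ∈ L, (tripleGraph m t).Adj x (Sum.inl b))
    (l2 : ∃ L : Set (Vert m t), L ⊆ (priv t T2 : Set (Vert m t)) ∧ L ⊆ Xᶜ ∧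
      Conn (tripleGraph m t) L ∧ (∃ x ∈ L, (tripleGraph m t).Adj x (Sum.inl b)) ∧
      ∃ x ∈ L, (tripleGraph m t).Adj x (Sum.inl c))
    (l3 : ∃ L : Set (Vert m t), L ⊆ (priv t T3 : Set (Vert m t)) ∧ L ⊆ Xᶜ ∧
      Conn (tripleGraph m t) L ∧ (∃ x ∈ L, (tripleGraph m t).Adj x (Sum.inl c)) ∧
      ∃ x ∈ L, (tripleGraph m t).Adj x (Sum.inl a)) :
    ∃ U, Hubs t X T U := by
  classical
  obtain ⟨L1, p1, x1, c1, ⟨a1, ha1, e1⟩, ⟨b1, hb1, f1⟩⟩ := l1
  obtain ⟨L2, p2, x2, c2, ⟨b2, hb2, e2⟩, ⟨c2', hc2, f2⟩⟩ := l2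
  obtain ⟨L3, p3, x3, c3, ⟨c3', hc3, e3⟩, ⟨a3, ha3, f3⟩⟩ := l3
  let U : Fin m → Set (Vert m t) := fun u => if u = a then {Sum.inl a} ∪ L1 else
    if u = b then {Sum.inl b} ∪ L2 else {Sum.inl c} ∪ L3
  have Ua : U a = {Sum.inl a} ∪ L1 := by simp [U]
  have Ub : U b = {Sum.inl b} ∪ L2 := by simp [U, hab.symm]
  have Uc : U c = {Sum.inl c} ∪ L3 := by simp [U, hac.symm, hbc.symm]
  have hmem : ∀ u ∈ T.1, u = a ∨ u = b ∨ u = c := by
    intro u hu; rw [hT] at hu; simpa using hu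
  have haT : a ∈ T.1 := by rw [hT]; simp
  have hbT : b ∈ T.1 := by rw [hT]; simp
  have hcT : c ∈ T.1 := by rw [hT]; simp
  -- generic facts on a set of the form {u} ∪ L
  have gen : ∀ (u : Fin m) (L : Set (Vert m t)) (T' : Triple m), u ∈ T.1 → T' ≠ T →
      L ⊆ (priv t T' : Set (Vert m t)) → L ⊆ Xᶜ → Conn (tripleGraph m t) L →
      (∃ x ∈ L, (tripleGraph m t).Adj x (Sum.inl u)) →
      (Sum.inl u : Vert m t) ∈ ({Sum.inl u} ∪ L : Set (Vert m t)) ∧
      Conn (tripleGraph m t) ({Sum.inl u} ∪ L) ∧ ({Sum.inl u} ∪ L : Set (Vert m t)) ⊆ Xᶜ ∧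
      Disjoint ({Sum.inl u} ∪ L : Set (Vert m t)) (priv t T) := by
    intro u L T' hu hT' hL hLX hcL ⟨x, hx, hxu⟩
    refine ⟨Or.inl rfl, (Conn.singleton _ _).union hcL ⟨_, rfl, x, hx, hxu.symm⟩, ?_, ?_⟩
    · rintro y (rfl | hy)
      · exact hX u hu
      · exact hLX hy
    · rw [Set.disjoint_left]
      rintro y (rfl | hy) hyT
      · obtain ⟨i, hi⟩ := mem_priv.1 (Finset.mem_coe.1 hyT)
        exact absurd hi (by simp)
      · exact Set.disjoint_left.1 (priv_disjoint hT') (hL hy) hyT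
  have gdis : ∀ (u v : Fin m) (L L' : Set (Vert m t)) (T' T'' : Triple m), u ≠ v → T' ≠ T'' →
      L ⊆ (priv t T' : Set (Vert m t)) → L' ⊆ (priv t T'' : Set (Vert m t)) →
      Disjoint ({Sum.inl u} ∪ L : Set (Vert m t)) ({Sum.inl v} ∪ L') := by
    intro u v L L' T' T'' huv hTT hL hL'
    rw [Set.disjoint_left]
    rintro y (rfl | hy) (hy' | hy')
    · rw [Set.mem_singleton_iff, Sum.inl.injEq] at hy'
      exact huv hy'
    · obtain ⟨i, hi⟩ := mem_priv.1 (Finset.mem_coe.1 (hL' hy'))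
      exact absurd hi (by simp)
    · rw [Set.mem_singleton_iff] at hy'
      subst hy'
      obtain ⟨i, hi⟩ := mem_priv.1 (Finset.mem_coe.1 (hL hy))
      exact absurd hi (by simp)
    · exact Set.disjoint_left.1 (priv_disjoint hTT) (hL hy) (hL' hy')
  refine ⟨U, ?_, ?_⟩
  · intro u hu
    rcases hmem u hu with rfl | rfl | rfl
    · rw [Ua]; exact gen _ L1 T1 haT h1 p1 x1 c1 ⟨a1, ha1, e1⟩
    · rw [Ub]; exact gen _ L2 T2 hbT h2 p2 x2 c2 ⟨b2, hb2, e2⟩
    · rw [Uc]; exact gen _ L3 T3 hcT h3 p3 x3 c3 ⟨c3', hc3, e3⟩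
  · have Dab : Disjoint (U a) (U b) := by rw [Ua, Ub]; exact gdis a b L1 L2 T1 T2 hab h12 p1 p2
    have Dbc : Disjoint (U b) (U c) := by rw [Ub, Uc]; exact gdis b c L2 L3 T2 T3 hbc h23 p2 p3
    have Dac : Disjoint (U a) (U c) := by rw [Ua, Uc]; exact gdis a c L1 L3 T1 T3 hac h13 p1 p3
    have Eab : ∃ x ∈ U a, ∃ y ∈ U b, (tripleGraph m t).Adj x y := by
      rw [Ua, Ub]; exact ⟨b1, Or.inr hb1, Sum.inl b, Or.inl rfl, f1⟩
    have Ebc : ∃ x ∈ U b, ∃ y ∈ U c, (tripleGraph m t).Adj x y := by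
      rw [Ub, Uc]; exact ⟨c2', Or.inr hc2, Sum.inl c, Or.inl rfl, f2⟩
    have Eac : ∃ x ∈ U a, ∃ y ∈ U c, (tripleGraph m t).Adj x y := by
      rw [Ua, Uc]; exact ⟨Sum.inl a, Or.inl rfl, a3, Or.inr ha3, f3.symm⟩
    have sw : ∀ S S' : Set (Vert m t), (∃ x ∈ S, ∃ y ∈ S', (tripleGraph m t).Adj x y) →
        ∃ x ∈ S', ∃ y ∈ S, (tripleGraph m t).Adj x y := by
      rintro S S' ⟨x, hx, y, hy, hxy⟩
      exact ⟨y, hy, x, hx, hxy.symm⟩
    intro u hu v hv huv
    rcases hmem u hu with rfl | rfl | rfl <;> rcases hmem v hv with rfl | rfl | rfl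
    · exact absurd rfl huv
    · exact ⟨Dab, Eab⟩
    · exact ⟨Dac, Eac⟩
    · exact ⟨Dab.symm, sw _ _ Eab⟩
    · exact absurd rfl huv
    · exact ⟨Dbc, Ebc⟩
    · exact ⟨Dac.symm, sw _ _ Eac⟩
    · exact ⟨Dbc.symm, sw _ _ Ebc⟩
    · exact absurd rfl huv

/-- a `K₃,₃` model from two triples of branch sets -/
theorem k33_of {V : Type*} {G : SimpleGraph V} {S : Set V} (P Q : Fin 3 → Set V)
    (hP : ∀ i, Conn G (P i) ∧ P i ⊆ S) (hQ : ∀ i, Conn G (Q i) ∧ Q i ⊆ S)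
    (hPP : ∀ i j, i ≠ j → Disjoint (P i) (P j)) (hQQ : ∀ i j, i ≠ j → Disjoint (Q i) (Q j))
    (hPQ : ∀ i j, Disjoint (P i) (Q j))
    (hadj : ∀ i j, ∃ x ∈ P i, ∃ y ∈ Q j, G.Adj x y) : IsMinor K33 (G.induce S) := by
  rw [isMinor_induce_iff]
  refine ⟨Sum.elim P Q, ?_, ?_⟩
  · rw [isModel_iff]
    refine ⟨?_, ?_, ?_⟩
    · rintro (i | i)
      · exact (hP i).1
      · exact (hQ i).1
    · rintro (i | i) (j | j) hij
      · exact hPP i j fun h => hij (by rw [h])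
      · exact hPQ i j
      · exact (hPQ j i).symm
      · exact hQQ i j fun h => hij (by rw [h])
    · rintro (i | i) (j | j) hij
      · simp at hij
      · exact hadj i j
      · obtain ⟨x, hx, y, hy, hxy⟩ := hadj j i
        exact ⟨y, hy, x, hx, hxy.symm⟩
      · simp at hij
  · rintro (i | i)
    · exact (hP i).2
    · exact (hQ i).2

theorem k5_of {V : Type*} {G : SimpleGraph V} {S : Set V} (P : Fin 3 → Set V)
    (Q : Fin 2 → Set V)
    (hP : ∀ i, Conn G (P i) ∧ P i ⊆ S) (hQ : ∀ i, Conn G (Q i) ∧ Q i ⊆ S)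
    (hPP : ∀ i j, i ≠ j → Disjoint (P i) (P j)) (hQQ : ∀ i j, i ≠ j → Disjoint (Q i) (Q j))
    (hPQ : ∀ i j, Disjoint (P i) (Q j))
    (hadj : ∀ i j, ∃ x ∈ P i, ∃ y ∈ Q j, G.Adj x y)
    (hadjP : ∀ i j, i ≠ j → ∃ x ∈ P i, ∃ y ∈ P j, G.Adj x y)
    (hadjQ : ∀ i j, i ≠ j → ∃ x ∈ Q i, ∃ y ∈ Q j, G.Adj x y) : IsMinor K5 (G.induce S) := by
  rw [isMinor_induce_iff]
  let e : Fin 3 ⊕ Fin 2 ≃ Fin 5 := finSumFinEquiv
  have hgen : ∀ a b : Fin 3 ⊕ Fin 2, a ≠ b →
      ∃ x ∈ (Sum.elim P Q a : Set V), ∃ y ∈ (Sum.elim P Q b : Set V), G.Adj x y := by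
    rintro (i | i) (j | j) hij
    · exact hadjP i j fun h => hij (by rw [h])
    · exact hadj i j
    · obtain ⟨x, hx, y, hy, hxy⟩ := hadj j i
      exact ⟨y, hy, x, hx, hxy.symm⟩
    · exact hadjQ i j fun h => hij (by rw [h])
  have hdis : ∀ a b : Fin 3 ⊕ Fin 2, a ≠ b →
      Disjoint (Sum.elim P Q a : Set V) (Sum.elim P Q b : Set V) := by
    rintro (i | i) (j | j) hij
    · exact hPP i j fun h => hij (by rw [h])
    · exact hPQ i j
    · exact (hPQ j i).symm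
    · exact hQQ i j fun h => hij (by rw [h])
  have hconn : ∀ a : Fin 3 ⊕ Fin 2, Conn G (Sum.elim P Q a : Set V) ∧
      (Sum.elim P Q a : Set V) ⊆ S := by
    rintro (i | i)
    · exact hP i
    · exact hQ i
  refine ⟨fun k => Sum.elim P Q (e.symm k), ?_, fun k => (hconn (e.symm k)).2⟩
  rw [isModel_iff]
  refine ⟨fun k => (hconn (e.symm k)).1, ?_, ?_⟩
  · intro k l hkl
    exact hdis _ _ fun h => hkl (e.symm.injective h)
  · intro k l hkl
    exact hgen _ _ fun h => hkl (e.symm.injective h)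

/-- a triple with enlarged terminals and with an untouched gadget gives a Kuratowski minor -/
theorem minor_of_hubs {X : Set (Vert m t)} {T : Triple m} {U : Fin m → Set (Vert m t)}
    (hU : Hubs t X T U) (hT : ∀ x ∈ priv t T, x ∉ X) :
    ¬ Planar ((tripleGraph m t).induce Xᶜ) := by
  classical
  have hsing : ∀ i : Fin (t T).size, Conn (tripleGraph m t) {Sum.inr ⟨T, i⟩} ∧
      ({Sum.inr ⟨T, i⟩} : Set (Vert m t)) ⊆ Xᶜ := by
    intro i
    refine ⟨Conn.singleton _ _, ?_⟩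
    rw [Set.singleton_subset_iff]
    exact hT _ (mem_priv.2 ⟨i, rfl⟩)
  have hUp : ∀ u ∈ T.1, ∀ i : Fin (t T).size,
      Disjoint (U u) ({Sum.inr ⟨T, i⟩} : Set (Vert m t)) := by
    intro u hu i
    rw [Set.disjoint_singleton_right]
    intro h
    exact Set.disjoint_left.1 (hU.1 u hu).2.2.2 h (mem_priv.2 ⟨i, rfl⟩)
  have hpp : ∀ i j : Fin (t T).size, i ≠ j →
      Disjoint ({Sum.inr ⟨T, i⟩} : Set (Vert m t)) {Sum.inr ⟨T, j⟩} := by
    intro i j hij
    rw [Set.disjoint_singleton]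
    intro h
    simp only [Sum.inr.injEq, Sigma.mk.injEq, heq_eq_eq, true_and] at h
    exact hij h
  -- terminal-private adjacency
  have hup : ∀ u ∈ T.1, ∀ i : Fin (t T).size, (t T).attach T i.val u →
      ∃ x ∈ U u, ∃ y ∈ ({Sum.inr ⟨T, i⟩} : Set (Vert m t)), (tripleGraph m t).Adj x y := by
    intro u hu i h
    exact ⟨Sum.inl u, (hU.1 u hu).1, _, rfl, (adj_lr _ _).2 ⟨hu, h⟩⟩
  have hpq : ∀ i j : Fin (t T).size, (t T).inner i.val j.val →
      ∃ x ∈ ({Sum.inr ⟨T, i⟩} : Set (Vert m t)), ∃ y ∈ ({Sum.inr ⟨T, j⟩} : Set (Vert m t)),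
        (tripleGraph m t).Adj x y := by
    intro i j h
    exact ⟨_, rfl, _, rfl, (adj_rr _ _).2 ⟨rfl, h⟩⟩
  let e : Fin 3 → Fin m := fun j => T.1.orderEmbOfFin T.2 j
  have heT : ∀ j, e j ∈ T.1 := fun j => Finset.orderEmbOfFin_mem _ _ _
  have heinj : ∀ i j, i ≠ j → e i ≠ e j := fun i j h h' => h ((T.1.orderEmbOfFin T.2).injective h')
  rintro ⟨hn5, hn6⟩
  rcases hg : t T with _ | _ | j
  · apply hn6
    have hs : (t T).size = 3 := by rw [hg]; rfl
    have hatt0 : ∀ (i : ℕ) (u : Fin m), (t T).attach T i u := by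
      intro i u; rw [hg]; trivial
    refine k33_of (fun i => U (e i)) (fun j => {Sum.inr ⟨T, Fin.cast hs.symm j⟩})
      (fun i => ⟨(hU.1 _ (heT i)).2.1, (hU.1 _ (heT i)).2.2.1⟩) (fun j => hsing _)
      (fun i j hij => (hU.2 _ (heT i) _ (heT j) (heinj i j hij)).1)
      (fun i j hij => hpp _ _ fun h => hij (Fin.cast_injective _ h))
      (fun i j => hUp _ (heT i) _) (fun i j => hup _ (heT i) _ ?_)
    exact hatt0 _ _
  · apply hn5
    have hs : (t T).size = 2 := by rw [hg]; rfl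
    have hatt0 : ∀ (i : ℕ) (u : Fin m), (t T).attach T i u := by
      intro i u; rw [hg]; trivial
    have hinn0 : ∀ (i j : ℕ), i ≠ j → (t T).inner i j := by
      intro i j h; rw [hg]; exact h
    refine k5_of (fun i => U (e i)) (fun j => {Sum.inr ⟨T, Fin.cast hs.symm j⟩})
      (fun i => ⟨(hU.1 _ (heT i)).2.1, (hU.1 _ (heT i)).2.2.1⟩) (fun j => hsing _)
      (fun i j hij => (hU.2 _ (heT i) _ (heT j) (heinj i j hij)).1)
      (fun i j hij => hpp _ _ fun h => hij (Fin.cast_injective _ h))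
      (fun i j => hUp _ (heT i) _) (fun i j => hup _ (heT i) _ ?_)
      (fun i j hij => (hU.2 _ (heT i) _ (heT j) (heinj i j hij)).2)
      (fun i j hij => hpq _ _ ?_)
    · exact hatt0 _ _
    · exact hinn0 _ _ fun h => hij (Fin.ext h)
  · apply hn6
    have hs : (t T).size = 3 := by rw [hg]; rfl
    -- the two other terminals
    obtain ⟨j1, j2, hj1, hj2, hj12⟩ : ∃ j1 j2 : Fin 3, j1 ≠ j ∧ j2 ≠ j ∧ j1 ≠ j2 := by
      fin_cases j
      · exact ⟨1, 2, by decide, by decide, by decide⟩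
      · exact ⟨0, 2, by decide, by decide, by decide⟩
      · exact ⟨0, 1, by decide, by decide, by decide⟩
    have hatt0 : ∀ (i : ℕ) (u : Fin m), (i = 0 ↔ u = e j) → (t T).attach T i u := by
      intro i u h; rw [hg]; exact h
    have hinn0 : ∀ (i i' : ℕ), ¬ (i = 0 ↔ i' = 0) → (t T).inner i i' := by
      intro i j h; rw [hg]; exact h
    let p : Fin 3 → Set (Vert m t) := fun i => {Sum.inr ⟨T, Fin.cast hs.symm i⟩}
    have hpdis : ∀ i j : Fin 3, i ≠ j → Disjoint (p i) (p j) := fun i j hij =>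
      hpp _ _ fun h => hij (Fin.cast_injective _ h)
    have hatt : ∀ (i : Fin 3) (u : Fin m), u ∈ T.1 → (i.val = 0 ↔ u = e j) →
        ∃ x ∈ U u, ∃ y ∈ p i, (tripleGraph m t).Adj x y := by
      intro i u hu h
      exact hup u hu _ (hatt0 _ _ h)
    have hinn : ∀ i i' : Fin 3, ¬ (i.val = 0 ↔ i'.val = 0) →
        ∃ x ∈ p i, ∃ y ∈ p i', (tripleGraph m t).Adj x y := by
      intro i i' h
      exact hpq _ _ (hinn0 _ _ h)
    have sw : ∀ S S' : Set (Vert m t), (∃ x ∈ S, ∃ y ∈ S', (tripleGraph m t).Adj x y) →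
        ∃ x ∈ S', ∃ y ∈ S, (tripleGraph m t).Adj x y := by
      rintro S S' ⟨x, hx, y, hy, hxy⟩
      exact ⟨y, hy, x, hx, hxy.symm⟩
    have hUc : ∀ i, Conn (tripleGraph m t) (U (e i)) ∧ U (e i) ⊆ Xᶜ :=
      fun i => ⟨(hU.1 _ (heT i)).2.1, (hU.1 _ (heT i)).2.2.1⟩
    have hUU : ∀ i i', i ≠ i' → Disjoint (U (e i)) (U (e i')) :=
      fun i i' h => (hU.2 _ (heT i) _ (heT i') (heinj i i' h)).1
    have hUadj : ∀ i i', i ≠ i' → ∃ x ∈ U (e i), ∃ y ∈ U (e i'), (tripleGraph m t).Adj x y :=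
      fun i i' h => (hU.2 _ (heT i) _ (heT i') (heinj i i' h)).2
    have hUpi : ∀ i i', Disjoint (U (e i)) (p i') := fun i i' => hUp _ (heT i) _
    refine k33_of ![U (e j1), U (e j2), p 0] ![U (e j), p 1, p 2] ?_ ?_ ?_ ?_ ?_ ?_
    · intro i; fin_cases i
      · exact hUc j1
      · exact hUc j2
      · exact hsing _
    · intro i; fin_cases i
      · exact hUc j
      · exact hsing _
      · exact hsing _
    · intro i i' h
      fin_cases i <;> fin_cases i'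
      · exact absurd rfl h
      · exact hUU _ _ hj12
      · exact hUpi _ _
      · exact hUU _ _ hj12.symm
      · exact absurd rfl h
      · exact hUpi _ _
      · exact (hUpi _ _).symm
      · exact (hUpi _ _).symm
      · exact absurd rfl h
    · intro i i' h
      fin_cases i <;> fin_cases i'
      · exact absurd rfl h
      · exact hUpi _ _
      · exact hUpi _ _
      · exact (hUpi _ _).symm
      · exact absurd rfl h
      · exact hpdis 1 2 (by decide)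
      · exact (hUpi _ _).symm
      · exact hpdis 2 1 (by decide)
      · exact absurd rfl h
    · intro i i'
      fin_cases i <;> fin_cases i'
      · exact hUU _ _ hj1
      · exact hUpi _ _
      · exact hUpi _ _
      · exact hUU _ _ hj2
      · exact hUpi _ _
      · exact hUpi _ _
      · exact (hUpi _ _).symm
      · exact hpdis 0 1 (by decide)
      · exact hpdis 0 2 (by decide)
    · intro i i'
      fin_cases i <;> fin_cases i'
      · exact hUadj _ _ hj1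
      · exact hatt 1 _ (heT j1) ⟨fun h => absurd h (by decide), fun h => absurd h (heinj _ _ hj1)⟩
      · exact hatt 2 _ (heT j1) ⟨fun h => absurd h (by decide), fun h => absurd h (heinj _ _ hj1)⟩
      · exact hUadj _ _ hj2
      · exact hatt 1 _ (heT j2) ⟨fun h => absurd h (by decide), fun h => absurd h (heinj _ _ hj2)⟩
      · exact hatt 2 _ (heT j2) ⟨fun h => absurd h (by decide), fun h => absurd h (heinj _ _ hj2)⟩
      · exact sw _ _ (hatt 0 _ (heT j) ⟨fun _ => rfl, fun _ => rfl⟩)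
      · exact hinn 0 1 (by decide)
      · exact hinn 0 2 (by decide)

end NApexGraphs
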