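import Pool.Agent.Helper58.Apex.TripleNon

/-!
# The glued graphs are not `n`-apex: the choice of the triple
-/

namespace NApexGraphs

open SimpleGraph

variable {m : ℕ} {t : Triple m → Glue}

theorem exists_third (Tt : Finset (Triple m)) {a b : Fin m} (hab : a ≠ b) (S : Finset (Fin m))
    (ha : a ∉ S) (hb : b ∉ S) (hS : Tt.card < S.card) :
    ∃ x ∈ S, ∃ T : Triple m, T.1 = {a, b, x} ∧ T ∉ Tt := by
  classical
  by_contra hcon
  push Not at hcon
  have h1 : S.card ≤ Tt.card := by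
    apply Finset.card_le_card_of_forall_subsingleton
      (fun x (T : Triple m) => T.1 = {a, b, x})
    · intro x hx
      have hcard : ({a, b, x} : Finset (Fin m)).card = 3 :=
        Finset.card_eq_three.2 ⟨a, b, x, hab, fun h => ha (h ▸ hx), fun h => hb (h ▸ hx), rfl⟩
      exact ⟨⟨{a, b, x}, hcard⟩, hcon x hx _ rfl, rfl⟩
    · rintro T _ x ⟨hx, hxT⟩ y ⟨hy, hyT⟩
      have h2 : x ∈ ({a, b, y} : Finset (Fin m)) := by
        rw [← hyT, hxT]; simp
      simp only [Finset.mem_insert, Finset.mem_singleton] at h2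
      rcases h2 with h2 | h2 | h2
      · exact absurd (h2 ▸ hx) ha
      · exact absurd (h2 ▸ hx) hb
      · exact h2
  omega

theorem triple_not_nApex {n : ℕ} (hn : 1 ≤ n) (t : Triple (n + 3) → Glue) :
    ¬ NApex n (tripleGraph (n + 3) t) := by
  classical
  rintro ⟨X, hX, hP⟩
  let Tt : Finset (Triple (n + 3)) := Finset.univ.filter fun T => ∃ x ∈ priv t T, x ∈ X
  let X0 : Finset (Fin (n + 3)) := Finset.univ.filter fun u => Sum.inl u ∈ X
  have hTt : ∀ T, T ∉ Tt → ∀ x ∈ priv t T, x ∉ (X : Set (Vert (n + 3) t)) := by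
    intro T hT x hx hxX
    exact hT (Finset.mem_filter.2 ⟨Finset.mem_univ _, x, hx, hxX⟩)
  have hX0 : ∀ u, u ∉ X0 → Sum.inl u ∉ (X : Set (Vert (n + 3) t)) := by
    intro u hu hxX
    exact hu (Finset.mem_filter.2 ⟨Finset.mem_univ _, hxX⟩)
  have hcount : X0.card + Tt.card ≤ n := by
    have h1 : X0.card ≤ (X.filter fun x => x.isLeft = true).card := by
      refine Finset.card_le_card_of_injOn (fun u => Sum.inl u) ?_ ?_
      · intro u hu
        exact Finset.mem_filter.2 ⟨(Finset.mem_filter.1 hu).2, rfl⟩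
      · intro u _ v _ h
        exact Sum.inl_injective h
    have h2 : Tt.card ≤ (X.filter fun x => ¬ x.isLeft = true).card := by
      apply Finset.card_le_card_of_forall_subsingleton (fun T x => x ∈ priv t T)
      · intro T hT
        obtain ⟨x, hx, hxX⟩ := (Finset.mem_filter.1 hT).2
        refine ⟨x, Finset.mem_filter.2 ⟨hxX, ?_⟩, hx⟩
        obtain ⟨i, rfl⟩ := mem_priv.1 hx
        simp
      · rintro x _ T ⟨_, hT⟩ T' ⟨_, hT'⟩
        by_contra hne
        exact Set.disjoint_left.1 (priv_disjoint (t := t) hne) hT hT'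
    have h3 := Finset.card_filter_add_card_filter_not (s := X) (fun x => x.isLeft = true)
    omega
  let Link : Triple (n + 3) → Fin (n + 3) → Fin (n + 3) → Prop := fun T' u v =>
    ∃ L : Set (Vert (n + 3) t), L ⊆ (priv t T' : Set (Vert (n + 3) t)) ∧
      L ⊆ (X : Set (Vert (n + 3) t))ᶜ ∧
      Conn (tripleGraph (n + 3) t) L ∧ (∃ x ∈ L, (tripleGraph (n + 3) t).Adj x (Sum.inl u)) ∧
      ∃ x ∈ L, (tripleGraph (n + 3) t).Adj x (Sum.inl v)
  have full : ∀ T', T' ∉ Tt → ∀ u ∈ T'.1, ∀ v ∈ T'.1, Link T' u v := by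
    intro T' hT' u hu v hv
    obtain ⟨L, hL, hc, hadj⟩ := full_link (t := t) T'
    exact ⟨L, hL, fun x hx => hTt T' hT' x (hL hx), hc, hadj u hu, hadj v hv⟩
  have fin : ∀ (T : Triple (n + 3)) (a b c : Fin (n + 3)), T.1 = {a, b, c} → a ≠ b → b ≠ c →
      a ≠ c → T ∉ Tt → (∀ u ∈ T.1, u ∉ X0) →
      (∃ T1, T1 ≠ T ∧ a ∈ T1.1 ∧ b ∈ T1.1 ∧ Link T1 a b) →
      (∃ T2, T2 ≠ T ∧ b ∈ T2.1 ∧ c ∈ T2.1 ∧ Link T2 b c) →
      (∃ T3, T3 ≠ T ∧ c ∈ T3.1 ∧ a ∈ T3.1 ∧ Link T3 c a) → False := by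
    rintro T a b c hT hab hbc hac hTT hTX ⟨T1, h1, a1, b1, l1⟩ ⟨T2, h2, b2, c2, l2⟩
      ⟨T3, h3, c3, a3, l3⟩
    have heq : ∀ T' : Triple (n + 3), a ∈ T'.1 → b ∈ T'.1 → c ∈ T'.1 → T' = T := by
      intro T' ha hb hc
      apply Subtype.ext
      symm
      apply Finset.eq_of_subset_of_card_le
      · rw [hT]
        intro x hx
        simp only [Finset.mem_insert, Finset.mem_singleton] at hx
        rcases hx with rfl | rfl | rfl
        · exact ha
        · exact hb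
        · exact hc
      · rw [T.2, T'.2]
    have h12 : T1 ≠ T2 := by
      rintro rfl; exact h1 (heq _ a1 b1 c2)
    have h23 : T2 ≠ T3 := by
      rintro rfl; exact h2 (heq _ a3 b2 c2)
    have h13 : T1 ≠ T3 := by
      rintro rfl; exact h1 (heq _ a1 b1 c3)
    obtain ⟨U, hU⟩ := hubs_of_links (X := (X : Set (Vert (n + 3) t))) hT hab hbc hac h1 h2 h3
      h12 h23 h13 (fun u hu => hX0 u (hTX u hu)) l1 l2 l3
    exact minor_of_hubs hU (hTt T hTT) hP
  -- good pairs suffice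
  have good : ∀ T : Triple (n + 3), T ∉ Tt → (∀ u ∈ T.1, u ∉ X0) →
      (∀ a ∈ T.1, ∀ b ∈ T.1, a ≠ b → ∃ T' : Triple (n + 3), T' ≠ T ∧ a ∈ T'.1 ∧ b ∈ T'.1 ∧
        T' ∉ Tt) → False := by
    intro T hTT hTX hg
    obtain ⟨a, b, c, hab, hac, hbc, hT⟩ := Finset.card_eq_three.1 T.2
    have ha : a ∈ T.1 := by rw [hT]; simp
    have hb : b ∈ T.1 := by rw [hT]; simp
    have hc : c ∈ T.1 := by rw [hT]; simp
    refine fin T a b c hT hab hbc hac hTT hTX ?_ ?_ ?_
    · obtain ⟨T', h1, h2, h3, h4⟩ := hg a ha b hb hab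
      exact ⟨T', h1, h2, h3, full T' h4 a h2 b h3⟩
    · obtain ⟨T', h1, h2, h3, h4⟩ := hg b hb c hc hbc
      exact ⟨T', h1, h2, h3, full T' h4 b h2 c h3⟩
    · obtain ⟨T', h1, h2, h3, h4⟩ := hg c hc a ha hac.symm
      exact ⟨T', h1, h2, h3, full T' h4 c h2 a h3⟩
  -- an untouched triple outside X0
  obtain ⟨T, hTT, hTX⟩ : ∃ T : Triple (n + 3), T ∉ Tt ∧ ∀ u ∈ T.1, u ∉ X0 := by
    have hR : 3 + Tt.card ≤ (X0ᶜ).card := by
      rw [Finset.card_compl, Fintype.card_fin]; omega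
    obtain ⟨a, ha, b, hb, hab⟩ := Finset.one_lt_card.1 (show 1 < (X0ᶜ).card by omega)
    obtain ⟨x, hx, T, hT, hTT⟩ := exists_third Tt hab (((X0ᶜ).erase a).erase b)
      (fun h => Finset.ne_of_mem_erase (Finset.mem_of_mem_erase h) rfl)
      (fun h => Finset.ne_of_mem_erase h rfl) (by
        rw [Finset.card_erase_of_mem (Finset.mem_erase.2 ⟨hab.symm, hb⟩),
          Finset.card_erase_of_mem ha]
        omega)
    refine ⟨T, hTT, ?_⟩
    intro u hu
    rw [hT] at hu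
    simp only [Finset.mem_insert, Finset.mem_singleton] at hu
    rcases hu with rfl | rfl | rfl
    · exact Finset.mem_compl.1 ha
    · exact Finset.mem_compl.1 hb
    · exact Finset.mem_compl.1 (Finset.mem_of_mem_erase (Finset.mem_of_mem_erase hx))
  by_cases hgood : ∀ a ∈ T.1, ∀ b ∈ T.1, a ≠ b → ∃ T' : Triple (n + 3), T' ≠ T ∧ a ∈ T'.1 ∧
      b ∈ T'.1 ∧ T' ∉ Tt
  · exact good T hTT hTX hgood
  push Not at hgood
  obtain ⟨a, ha, b, hb, hab, hbad⟩ := hgood
  have hTc : ((T.1)ᶜ).card = n := by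
    rw [Finset.card_compl, Fintype.card_fin, T.2]; omega
  -- all touched triples contain b, and there are n of them
  have hex : ∀ Tt' : Finset (Triple (n + 3)), Tt'.card < n →
      ∃ T' : Triple (n + 3), T' ≠ T ∧ a ∈ T'.1 ∧ b ∈ T'.1 ∧ T' ∉ Tt' := by
    intro Tt' hlt
    obtain ⟨x, hx, T', hT', hTT'⟩ := exists_third Tt' hab (T.1)ᶜ
      (fun h => Finset.mem_compl.1 h ha) (fun h => Finset.mem_compl.1 h hb) (by omega)
    refine ⟨T', ?_, ?_, ?_, hTT'⟩
    · rintro rfl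
      exact Finset.mem_compl.1 hx (by rw [hT']; simp)
    · rw [hT']; simp
    · rw [hT']; simp
  have hTn : Tt.card = n := by
    by_contra hne
    obtain ⟨T', h1, h2, h3, h4⟩ := hex Tt (by omega)
    exact h4 (hbad T' h1 h2 h3)
  have hX00 : ∀ u, u ∉ X0 := by
    have : X0 = ∅ := Finset.card_eq_zero.1 (by omega)
    intro u; rw [this]; simp
  have hballs : ∀ T' ∈ Tt, b ∈ T'.1 := by
    intro T' hT'
    by_contra hbT'
    obtain ⟨T'', h1, h2, h3, h4⟩ := hex (Tt.erase T') (by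
      rw [Finset.card_erase_of_mem hT']; omega)
    apply h4
    refine Finset.mem_erase.2 ⟨?_, hbad T'' h1 h2 h3⟩
    rintro rfl
    exact hbT' h3
  by_cases hn2 : 2 ≤ n
  · -- a triple avoiding b
    have h3 : 3 ≤ (Finset.univ.erase b).card := by
      rw [Finset.card_erase_of_mem (Finset.mem_univ _), Finset.card_univ, Fintype.card_fin]
      omega
    obtain ⟨S, hS, hSc⟩ := Finset.exists_subset_card_eq h3
    have hbS : b ∉ S := fun h => Finset.ne_of_mem_erase (hS h) rfl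
    have hmiss : ∀ T' : Triple (n + 3), b ∉ T'.1 → T' ∉ Tt := fun T' h h' => h (hballs T' h')
    refine good ⟨S, hSc⟩ (hmiss _ hbS) (fun u _ => hX00 u) ?_
    intro a' ha' b' hb' hab'
    have h4 : 0 < ((Sᶜ).erase b).card := by
      rw [Finset.card_erase_of_mem (Finset.mem_compl.2 hbS), Finset.card_compl, Fintype.card_fin,
        hSc]
      omega
    obtain ⟨x, hx⟩ := Finset.card_pos.1 h4
    have hxS : x ∉ S := Finset.mem_compl.1 (Finset.mem_of_mem_erase hx)
    have hxb : x ≠ b := Finset.ne_of_mem_erase hx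
    have hcard : ({a', b', x} : Finset (Fin (n + 3))).card = 3 :=
      Finset.card_eq_three.2 ⟨a', b', x, hab', fun h => hxS (h ▸ ha'), fun h => hxS (h ▸ hb'), rfl⟩
    refine ⟨⟨{a', b', x}, hcard⟩, ?_, by simp, by simp, hmiss _ ?_⟩
    · intro h
      apply hxS
      have : x ∈ ({a', b', x} : Finset (Fin (n + 3))) := by simp
      rw [Subtype.mk.injEq] at h
      rwa [h] at this
    · simp only [Finset.mem_insert, Finset.mem_singleton, not_or]
      exact ⟨fun h => hbS (h ▸ ha'), fun h => hbS (h ▸ hb'), hxb.symm⟩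
  · -- n = 1
    have hn1 : n = 1 := by omega
    obtain ⟨Ts, hTs⟩ := Finset.card_eq_one.1 (hTn.trans hn1)
    have hTsm : Ts ∈ Tt := by rw [hTs]; simp
    obtain ⟨z, hz, hzX⟩ := (Finset.mem_filter.1 hTsm).2
    have hXz : ∀ x ∈ X, x = z := by
      intro x hx
      by_contra hxz
      have : ({x, z} : Finset _) ⊆ X := by
        intro y hy
        rcases Finset.mem_insert.1 hy with rfl | hy
        · exact hx
        · rw [Finset.mem_singleton.1 hy]; exact hzX
      have := Finset.card_le_card this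
      rw [Finset.card_pair hxz] at this
      omega
    obtain ⟨L, u, hu, v, hv, huv, hL, hzL, hLc, hLu, hLv⟩ := part_link (t := t) Ts z
    have hne : ∀ T' : Triple (n + 3), T' ≠ Ts → T' ∉ Tt := by
      intro T' h h'
      rw [hTs, Finset.mem_singleton] at h'
      exact h h'
    obtain ⟨c, hc⟩ : ∃ c, c ∈ (Ts.1.erase u).erase v := by
      apply Finset.card_pos.1
      rw [Finset.card_erase_of_mem (Finset.mem_erase.2 ⟨huv.symm, hv⟩),
        Finset.card_erase_of_mem hu, Ts.2]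
      norm_num
    have hcv : c ≠ v := Finset.ne_of_mem_erase hc
    have hcu : c ≠ u := Finset.ne_of_mem_erase (Finset.mem_of_mem_erase hc)
    have hcT : c ∈ Ts.1 := Finset.mem_of_mem_erase (Finset.mem_of_mem_erase hc)
    obtain ⟨d, hd⟩ : ∃ d, d ∈ (Ts.1)ᶜ := by
      apply Finset.card_pos.1
      rw [Finset.card_compl, Fintype.card_fin, Ts.2]
      omega
    have hdT : d ∉ Ts.1 := Finset.mem_compl.1 hd
    have hdu : d ≠ u := fun h => hdT (h ▸ hu)
    have hdv : d ≠ v := fun h => hdT (h ▸ hv)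
    have hdc : d ≠ c := fun h => hdT (h ▸ hcT)
    have mk : ∀ x y z : Fin (n + 3), x ≠ y → x ≠ z → y ≠ z →
        ({x, y, z} : Finset (Fin (n + 3))).card = 3 := fun x y z h1 h2 h3 =>
      Finset.card_eq_three.2 ⟨x, y, z, h1, h2, h3, rfl⟩
    let T0 : Triple (n + 3) := ⟨{u, v, d}, mk u v d huv hdu.symm hdv.symm⟩
    let T2 : Triple (n + 3) := ⟨{v, d, c}, mk v d c hdv.symm hcv.symm hdc⟩
    let T3 : Triple (n + 3) := ⟨{d, u, c}, mk d u c hdu hdc hcu.symm⟩
    have hd0 : d ∈ T0.1 := by simp [T0]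
    have hd2 : d ∈ T2.1 := by simp [T2]
    have hd3 : d ∈ T3.1 := by simp [T3]
    have hT0 : T0 ≠ Ts := fun h => hdT (h ▸ hd0)
    have hT2 : T2 ≠ Ts := fun h => hdT (h ▸ hd2)
    have hT3 : T3 ≠ Ts := fun h => hdT (h ▸ hd3)
    have hc0 : c ∉ T0.1 := by simp [T0, hcu, hcv, hdc.symm]
    have hc2 : c ∈ T2.1 := by simp [T2]
    have hc3 : c ∈ T3.1 := by simp [T3]
    refine fin T0 u v d rfl huv hdv.symm hdu.symm (hne _ hT0) (fun w _ => hX00 w)
      ⟨Ts, hT0.symm, hu, hv, L, hL, ?_, hLc, hLu, hLv⟩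
      ⟨T2, fun h => hc0 (h ▸ hc2), by simp [T2], hd2, full T2 (hne _ hT2) v (by simp [T2]) d hd2⟩
      ⟨T3, fun h => hc0 (h ▸ hc3), hd3, by simp [T3], full T3 (hne _ hT3) d hd3 u (by simp [T3])⟩
    intro x hx hxX
    rw [hXz x hxX] at hx
    exact hzL hx

/-- every glued graph is a minor-minimal non-`n`-apex graph -/
theorem triple_mem {n : ℕ} (hn : 1 ≤ n) (t : Triple (n + 3) → Glue) :
    MinMinimal n (tripleGraph (n + 3) t) :=
  triple_minMinimal t (triple_not_nApex hn t)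

end NApexGraphs
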