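import Pool.Agent.Helper58.Apex.TripleSel

/-!
# Isomorphisms of glued graphs preserve the terminals (at least four terminals)
-/

namespace NApexGraphs

open SimpleGraph

variable {m : ℕ} {t t' : Triple m → Glue}

theorem glue_attach_some (g : Glue) (T : Triple m) (u : Fin m) :
    ∃ i, i < g.size ∧ g.attach T i u := by
  cases g with
  | side => exact ⟨0, Nat.succ_pos 2, trivial⟩
  | five => exact ⟨0, Nat.succ_pos 1, trivial⟩
  | odd j =>
    by_cases hu : u = T.1.orderEmbOfFin T.2 j
    · exact ⟨0, Nat.succ_pos 2, fun _ => hu, fun _ => rfl⟩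
    · exact ⟨1, Nat.one_lt_succ_succ 1, fun h => absurd h Nat.one_ne_zero,
        fun h => absurd h hu⟩

/-- if two terminals are adjacent to the same private vertex, then each of them is adjacent to
another private vertex of the gadget. -/
theorem glue_attach_other (g : Glue) (T : Triple m) {u v : Fin m} (huv : u ≠ v) (i : ℕ)
    (hu : g.attach T i u) (hv : g.attach T i v) :
    ∃ i', i' < g.size ∧ i' ≠ i ∧ g.attach T i' u := by
  cases g with
  | side =>
    by_cases hi : i = 0
    · exact ⟨1, Nat.one_lt_succ_succ 1, by omega, trivial⟩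
    · exact ⟨0, Nat.succ_pos 2, by omega, trivial⟩
  | five =>
    by_cases hi : i = 0
    · exact ⟨1, Nat.one_lt_succ_succ 0, by omega, trivial⟩
    · exact ⟨0, Nat.succ_pos 1, by omega, trivial⟩
  | odd j =>
    have h0 : i ≠ 0 := by
      intro hi
      exact huv ((hu.1 hi).trans (hv.1 hi).symm)
    have hw : u ≠ T.1.orderEmbOfFin T.2 j := fun h => h0 (hu.2 h)
    by_cases hi : i = 1
    · exact ⟨2, Nat.lt_succ_self 2, by omega, fun h => absurd h (by omega),
        fun h => absurd h hw⟩
    · exact ⟨1, Nat.one_lt_succ_succ 1, fun h => hi h.symm, fun h => absurd h (by omega),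
        fun h => absurd h hw⟩

/-- the local structure at a private vertex. -/
theorem priv_local (p : Σ T : Triple m, Fin (t T).size) :
    ((∃ N : Finset (Vert m t), N.card ≤ 3 ∧
        ∀ y, (tripleGraph m t).Adj (Sum.inr p) y → y ∈ N) ∧
      ∃ y₁ y₂ z, y₁ ≠ y₂ ∧ z ≠ Sum.inr p ∧ (tripleGraph m t).Adj (Sum.inr p) y₁ ∧
        (tripleGraph m t).Adj (Sum.inr p) y₂ ∧ (tripleGraph m t).Adj z y₁ ∧
        (tripleGraph m t).Adj z y₂) ∨
    ∃ b, (tripleGraph m t).Adj (Sum.inr p) b ∧
      ∀ y, (tripleGraph m t).Adj (Sum.inr p) y → y = b ∨ (tripleGraph m t).Adj b y := by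
  obtain ⟨T, i⟩ := p
  have hdeg := deg_priv (t := t) T (Sum.inr ⟨T, i⟩) (mem_priv.2 ⟨i, rfl⟩)
  rw [card_term, card_priv, T.2] at hdeg
  cases hg : t T with
  | side =>
    left
    have hs : (t T).size = 3 := by rw [hg]; rfl
    refine ⟨?_, ?_⟩
    · obtain ⟨N, h1, h2⟩ := hdeg
      exact ⟨N, by omega, h2⟩
    · obtain ⟨a, ha, b, hb, hab⟩ := Finset.one_lt_card.1 (show 1 < T.1.card by
        rw [T.2]; norm_num)
      have hatt : ∀ (k : ℕ) (u : Fin m), (t T).attach T k u := by
        intro k u; rw [hg]; trivial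
      obtain ⟨k, hk⟩ : ∃ k : Fin (t T).size, k ≠ i := by
        by_cases hi : i.val = 0
        · exact ⟨⟨1, by omega⟩, fun h => by rw [← h] at hi; exact absurd hi Nat.one_ne_zero⟩
        · exact ⟨⟨0, by omega⟩, fun h => hi (by rw [← h])⟩
      refine ⟨Sum.inl a, Sum.inl b, Sum.inr ⟨T, k⟩, fun h => hab (Sum.inl_injective h), ?_,
        (adj_rl _ _).2 ⟨ha, hatt _ _⟩, (adj_rl _ _).2 ⟨hb, hatt _ _⟩,
        (adj_rl _ _).2 ⟨ha, hatt _ _⟩, (adj_rl _ _).2 ⟨hb, hatt _ _⟩⟩
      intro h
      simp only [Sum.inr.injEq, Sigma.mk.injEq, heq_eq_eq, true_and] at h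
      exact hk h
  | five =>
    right
    have hs : (t T).size = 2 := by rw [hg]; rfl
    have hatt : ∀ (k : ℕ) (u : Fin m), (t T).attach T k u := by
      intro k u; rw [hg]; trivial
    have hinn : ∀ (k l : ℕ), k ≠ l → (t T).inner k l := by
      intro k l h; rw [hg]; exact h
    obtain ⟨k, hk⟩ : ∃ k : Fin (t T).size, k ≠ i := by
      by_cases hi : i.val = 0
      · exact ⟨⟨1, by omega⟩, fun h => by rw [← h] at hi; exact absurd hi Nat.one_ne_zero⟩
      · exact ⟨⟨0, by omega⟩, fun h => hi (by rw [← h])⟩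
    refine ⟨Sum.inr ⟨T, k⟩, (adj_rr _ _).2 ⟨rfl, hinn _ _ fun h => hk (Fin.ext h.symm)⟩, ?_⟩
    rintro (u | ⟨T', l⟩) hy
    · right
      exact (adj_rl _ _).2 ⟨((adj_rl _ _).1 hy).1, hatt _ _⟩
    · left
      obtain ⟨h1, h2⟩ := (adj_rr _ _).1 hy
      change T = T' at h1
      subst h1
      have h3 : i ≠ l := fun h => by
        rw [h] at hy
        exact hy.ne rfl
      congr 2
      apply Fin.ext
      have h4 := i.isLt
      have h5 := l.isLt
      have h6 := k.isLt
      have h7 : i.val ≠ l.val := fun h => h3 (Fin.ext h)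
      have h8 : k.val ≠ i.val := fun h => hk (Fin.ext h)
      omega
  | odd j =>
    left
    have hs : (t T).size = 3 := by rw [hg]; rfl
    have hatt : ∀ (k : ℕ) (u : Fin m), (k = 0 ↔ u = T.1.orderEmbOfFin T.2 j) →
        (t T).attach T k u := by
      intro k u h; rw [hg]; exact h
    have hinn : ∀ (k l : ℕ), ¬ (k = 0 ↔ l = 0) → (t T).inner k l := by
      intro k l h; rw [hg]; exact h
    obtain ⟨a, ha, b, hb, hab⟩ := Finset.one_lt_card.1
      (show 1 < (T.1.erase (T.1.orderEmbOfFin T.2 j)).card by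
        rw [Finset.card_erase_of_mem (Finset.orderEmbOfFin_mem _ _ _), T.2]; norm_num)
    have ha' := Finset.ne_of_mem_erase ha
    have hb' := Finset.ne_of_mem_erase hb
    have haT := Finset.mem_of_mem_erase ha
    have hbT := Finset.mem_of_mem_erase hb
    refine ⟨?_, ?_⟩
    · obtain ⟨N, h1, h2⟩ := hdeg
      exact ⟨N, by omega, h2⟩
    · by_cases hi : i.val = 0
      · refine ⟨Sum.inr ⟨T, ⟨1, by omega⟩⟩, Sum.inr ⟨T, ⟨2, by omega⟩⟩, Sum.inl a, ?_, ?_,
          (adj_rr _ _).2 ⟨rfl, hinn _ _ ?_⟩, (adj_rr _ _).2 ⟨rfl, hinn _ _ ?_⟩,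
          (adj_lr _ _).2 ⟨haT, hatt _ _ ?_⟩, (adj_lr _ _).2 ⟨haT, hatt _ _ ?_⟩⟩
        · intro h
          simp at h
        · intro h
          simp at h
        · rw [hi]; simp
        · rw [hi]; simp
        · exact ⟨fun h => absurd h Nat.one_ne_zero, fun h => absurd h ha'⟩
        · exact ⟨fun h => absurd h two_ne_zero, fun h => absurd h ha'⟩
      · obtain ⟨k, hk, hk0⟩ : ∃ k : Fin (t T).size, k ≠ i ∧ k.val ≠ 0 := by
          by_cases hi1 : i.val = 1
          · exact ⟨⟨2, by omega⟩, fun h => by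
              rw [← h] at hi1; exact absurd hi1 (by norm_num), two_ne_zero⟩
          · exact ⟨⟨1, by omega⟩, fun h => hi1 (by rw [← h]), Nat.one_ne_zero⟩
        refine ⟨Sum.inl a, Sum.inl b, Sum.inr ⟨T, k⟩, fun h => hab (Sum.inl_injective h), ?_,
          (adj_rl _ _).2 ⟨haT, hatt _ _ ?_⟩, (adj_rl _ _).2 ⟨hbT, hatt _ _ ?_⟩,
          (adj_rl _ _).2 ⟨haT, hatt _ _ ?_⟩, (adj_rl _ _).2 ⟨hbT, hatt _ _ ?_⟩⟩
        · intro h
          simp only [Sum.inr.injEq, Sigma.mk.injEq, heq_eq_eq, true_and] at h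
          exact hk h
        · exact ⟨fun h => absurd h hi, fun h => absurd h ha'⟩
        · exact ⟨fun h => absurd h hi, fun h => absurd h hb'⟩
        · exact ⟨fun h => absurd h hk0, fun h => absurd h ha'⟩
        · exact ⟨fun h => absurd h hk0, fun h => absurd h hb'⟩

/-- three triples containing a given terminal. -/
theorem three_triples (hm : 4 ≤ m) (u : Fin m) : ∃ T : Fin 3 → Triple m,
    Function.Injective T ∧ ∀ i, u ∈ (T i).1 := by
  classical
  have h3 : 3 ≤ (Finset.univ.erase u).card := by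
    rw [Finset.card_erase_of_mem (Finset.mem_univ _), Finset.card_univ, Fintype.card_fin]
    omega
  obtain ⟨S, hS, hSc⟩ := Finset.exists_subset_card_eq h3
  have huS : u ∉ S := fun h => Finset.ne_of_mem_erase (hS h) rfl
  let e : Fin 3 → Fin m := fun i => S.orderEmbOfFin hSc i
  have heS : ∀ i, e i ∈ S := fun i => Finset.orderEmbOfFin_mem _ _ _
  have heinj : Function.Injective e := (S.orderEmbOfFin hSc).injective
  have hc : ∀ i, (insert u (S.erase (e i))).card = 3 := by
    intro i
    rw [Finset.card_insert_of_notMem (fun h => huS (Finset.mem_of_mem_erase h)),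
      Finset.card_erase_of_mem (heS i), hSc]
  refine ⟨fun i => ⟨insert u (S.erase (e i)), hc i⟩, ?_, fun i => Finset.mem_insert_self _ _⟩
  intro i j hij
  apply heinj
  by_contra hne
  have h1 : e i ∈ insert u (S.erase (e j)) :=
    Finset.mem_insert_of_mem (Finset.mem_erase.2 ⟨hne, heS i⟩)
  have h2 : insert u (S.erase (e i)) = insert u (S.erase (e j)) := congrArg Subtype.val hij
  rw [← h2] at h1
  rcases Finset.mem_insert.1 h1 with h | h
  · exact huS (h ▸ heS i)
  · exact Finset.ne_of_mem_erase h rfl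

/-- an isomorphism maps terminals to terminals -/
theorem iso_term (hm : 4 ≤ m) (φ : tripleGraph m t ≃g tripleGraph m t') (u : Fin m) :
    ∃ v, φ (Sum.inl u) = Sum.inl v := by
  classical
  rcases hφ : φ (Sum.inl u) with v | p
  · exact ⟨v, rfl⟩
  exfalso
  obtain ⟨T, hTinj, hTu⟩ := three_triples hm u
  have hy : ∀ i, ∃ k : Fin (t (T i)).size, (tripleGraph m t).Adj (Sum.inl u)
      (Sum.inr ⟨T i, k⟩) := by
    intro i
    obtain ⟨k, hk, hk'⟩ := glue_attach_some (t (T i)) (T i) u
    exact ⟨⟨k, hk⟩, (adj_lr _ _).2 ⟨hTu i, hk'⟩⟩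
  choose y hy using hy
  rcases priv_local (t := t') p with ⟨⟨N, hN3, hN⟩, y₁, y₂, z, hy12, hz, h1, h2, hz1, hz2⟩ |
      ⟨b, hb, hball⟩
  · -- pull back
    have hpull : ∀ w, (tripleGraph m t').Adj (Sum.inr p) w →
        (tripleGraph m t).Adj (Sum.inl u) (φ.symm w) := by
      intro w hw
      rw [← φ.map_adj_iff, hφ, RelIso.apply_symm_apply]
      exact hw
    have ha1 := hpull _ h1
    have ha2 := hpull _ h2
    have hzu : φ.symm z ≠ Sum.inl u := by
      intro h
      apply hz
      rw [← hφ, ← h, RelIso.apply_symm_apply]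
    have hz1' : (tripleGraph m t).Adj (φ.symm z) (φ.symm y₁) := φ.symm.map_adj_iff.2 hz1
    have hz2' : (tripleGraph m t).Adj (φ.symm z) (φ.symm y₂) := φ.symm.map_adj_iff.2 hz2
    -- the number of neighbours of u
    have hcount : ∀ S : Finset (Vert m t), (∀ y ∈ S, (tripleGraph m t).Adj (Sum.inl u) y) →
        S.card ≤ 3 := by
      intro S hS
      refine le_trans ?_ hN3
      refine Finset.card_le_card_of_injOn φ ?_ fun a _ b _ hab => φ.injective hab
      intro a ha
      apply hN
      rw [← hφ]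
      exact φ.map_adj_iff.2 (hS a ha)
    -- two neighbours in the same gadget give four neighbours
    have hsame : ∀ (T0 : Triple m) (k k' : Fin (t T0).size), k ≠ k' →
        (tripleGraph m t).Adj (Sum.inl u) (Sum.inr ⟨T0, k⟩) →
        (tripleGraph m t).Adj (Sum.inl u) (Sum.inr ⟨T0, k'⟩) → False := by
      intro T0 k k' hkk' hk hk'
      -- two of the three triples are different from T0
      obtain ⟨i, j, hij, hi, hj⟩ : ∃ i j : Fin 3, i ≠ j ∧ T i ≠ T0 ∧ T j ≠ T0 := by
        by_cases h0 : T 0 = T0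
        · exact ⟨1, 2, by decide, fun h => absurd (hTinj (h.trans h0.symm)) (by decide),
            fun h => absurd (hTinj (h.trans h0.symm)) (by decide)⟩
        · by_cases h1 : T 1 = T0
          · exact ⟨0, 2, by decide, h0, fun h => absurd (hTinj (h.trans h1.symm)) (by decide)⟩
          · exact ⟨0, 1, by decide, h0, h1⟩
      have hfour : ({Sum.inr ⟨T0, k⟩, Sum.inr ⟨T0, k'⟩, Sum.inr ⟨T i, y i⟩,
          Sum.inr ⟨T j, y j⟩} : Finset (Vert m t)).card = 4 := by
        have hne : ∀ (T1 T2 : Triple m) (a : Fin (t T1).size) (b : Fin (t T2).size), T1 ≠ T2 →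
            (Sum.inr ⟨T1, a⟩ : Vert m t) ≠ Sum.inr ⟨T2, b⟩ := by
          intro T1 T2 a b h h'
          simp only [Sum.inr.injEq, Sigma.mk.injEq] at h'
          exact h h'.1
        have hne' : (Sum.inr ⟨T0, k⟩ : Vert m t) ≠ Sum.inr ⟨T0, k'⟩ := by
          intro h'
          simp only [Sum.inr.injEq, Sigma.mk.injEq, heq_eq_eq, true_and] at h'
          exact hkk' h'
        rw [Finset.card_insert_of_notMem, Finset.card_insert_of_notMem,
          Finset.card_insert_of_notMem, Finset.card_singleton]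
        · rw [Finset.mem_singleton]
          exact hne _ _ _ _ fun h => hij (hTinj h)
        · simp only [Finset.mem_insert, Finset.mem_singleton, not_or]
          exact ⟨hne _ _ _ _ hi.symm, hne _ _ _ _ hj.symm⟩
        · simp only [Finset.mem_insert, Finset.mem_singleton, not_or]
          exact ⟨hne', hne _ _ _ _ hi.symm, hne _ _ _ _ hj.symm⟩
      have := hcount ({Sum.inr ⟨T0, k⟩, Sum.inr ⟨T0, k'⟩, Sum.inr ⟨T i, y i⟩,
          Sum.inr ⟨T j, y j⟩} : Finset (Vert m t)) (by
        intro w hw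
        simp only [Finset.mem_insert, Finset.mem_singleton] at hw
        rcases hw with rfl | rfl | rfl | rfl
        · exact hk
        · exact hk'
        · exact hy i
        · exact hy j)
      omega
    -- y₁' and y₂' are private
    rcases e1 : φ.symm y₁ with v | ⟨T1, k1⟩
    · rw [e1] at ha1; exact adj_ll _ _ ha1
    rcases e2 : φ.symm y₂ with v | ⟨T2, k2⟩
    · rw [e2] at ha2; exact adj_ll _ _ ha2
    rw [e1] at ha1 hz1'
    rw [e2] at ha2 hz2'
    rcases e3 : φ.symm z with v | ⟨T3, k3⟩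
    · -- z' is a terminal different from u
      rw [e3] at hz1' hzu
      have huv : u ≠ v := fun h => hzu (by rw [h])
      obtain ⟨i', hi', hne, hatt⟩ := glue_attach_other (t T1) T1 huv k1.val
        ((adj_lr _ _).1 ha1).2 ((adj_lr _ _).1 hz1').2
      refine hsame T1 k1 ⟨i', hi'⟩ (fun h => hne (by rw [h])) ha1 ?_
      exact (adj_lr _ _).2 ⟨((adj_lr _ _).1 ha1).1, hatt⟩
    · -- z' is private: all in the same gadget
      rw [e3, adj_rr] at hz1' hz2'
      have hT12 : T1 = T2 := hz1'.1.symm.trans hz2'.1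
      subst hT12
      refine hsame T1 k1 k2 ?_ ha1 ha2
      intro h
      apply hy12
      apply φ.symm.injective
      rw [e1, e2, h]
  · -- the case of a dominating neighbour
    have hb' : (tripleGraph m t).Adj (Sum.inl u) (φ.symm b) := by
      rw [← φ.map_adj_iff, hφ, RelIso.apply_symm_apply]
      exact hb
    have hball' : ∀ w, (tripleGraph m t).Adj (Sum.inl u) w → w = φ.symm b ∨
        (tripleGraph m t).Adj (φ.symm b) w := by
      intro w hw
      rcases hball (φ w) (by rw [← hφ]; exact φ.map_adj_iff.2 hw) with h | h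
      · left; rw [← h, RelIso.symm_apply_apply]
      · right
        rw [← φ.map_adj_iff, RelIso.apply_symm_apply]
        exact h
    rcases e : φ.symm b with v | ⟨T0, k⟩
    · rw [e] at hb'; exact adj_ll _ _ hb'
    · rw [e] at hball'
      have hTi : ∀ i, T i = T0 := by
        intro i
        rcases hball' _ (hy i) with h | h
        · simp only [Sum.inr.injEq, Sigma.mk.injEq] at h
          exact h.1
        · exact ((adj_rr _ _).1 h).1.symm
      exact absurd (hTinj ((hTi 0).trans (hTi 1).symm)) (by decide)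

end NApexGraphs
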